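import Pool.Agent.H818.Bd.Mid

/-!
# Small coordinates have spherical type
-/

set_option autoImplicit false
set_option linter.unusedSectionVars false

namespace Pool.Agent.H818.Bd

open CoxeterSystem Pool.Agent.Helper703.Cox Pool.Agent.TH5.BD Pool.Agent.Y476.ZB

variable {B : Type*} {M : CoxeterMatrix B} [Fintype B] [DecidableEq B]
variable {W : Type*} [Group W] (cs : CoxeterSystem M W)

lemma cc_nonneg {i j : B} (h : i ≠ j) : 0 ≤ cc M i j := by
  unfold cc
  by_cases h0 : M i j = 0
  · simp [h0]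
  · have h2 := two_le_of_ne M h h0
    have h2' : (2 : ℝ) ≤ (M i j : ℝ) := by exact_mod_cast h2
    apply Real.cos_nonneg_of_mem_Icc
    constructor
    · have : 0 ≤ Real.pi / (M i j : ℝ) := div_nonneg Real.pi_pos.le (by linarith)
      have := Real.pi_pos
      linarith
    · exact div_le_div_of_nonneg_left Real.pi_pos.le (by norm_num) h2'

/-- Antidominant vectors in the cone of the positive roots. -/
def Anti (M : CoxeterMatrix B) (u : B → ℝ) : Prop := 0 ≤ u ∧ ∀ s, bf M u (ee s) ≤ 0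

lemma anti_geo {u : B → ℝ} (hu : Anti M u) : ∀ (n : ℕ) (w : W), cs.length w = n →
    0 ≤ geo cs w u - u := by
  intro n
  induction n with
  | zero =>
    intro w hw
    rw [cs.length_eq_zero_iff] at hw
    rw [hw, map_one, Module.End.one_apply, sub_self]
  | succ n ih =>
    intro w hw
    have h1 : w ≠ 1 := by
      rintro rfl
      rw [cs.length_one] at hw
      omega
    obtain ⟨s, hs⟩ := cs.exists_rightDescent_of_ne_one h1
    have hs' : cs.length (w * cs.simple s) < cs.length w := hs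
    obtain ⟨w', hw'⟩ : ∃ w', w' = w * cs.simple s := ⟨_, rfl⟩
    have e : w = w' * cs.simple s := by rw [hw', cs.simple_mul_simple_cancel_right]
    rw [← hw'] at hs'
    have hl : cs.length w = cs.length w' + 1 := by
      rw [e] at hs' ⊢
      rcases cs.length_mul_simple w' s with h | h <;> omega
    have h2 := ih w' (by omega)
    have h3 : 0 ≤ geo cs w' (ee s) := geo_nonneg cs w' s (by rw [← e]; exact hs')
    have h4 : coroot M s u ≤ 0 := by
      rw [← bf_ee, bf_symm]
      exact hu.2 s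
    rw [e, map_mul, Module.End.mul_apply, geo_simple, sg_apply, map_sub, map_smul]
    intro i
    have h5 := h2 i
    have h6 := h3 i
    simp only [Pi.sub_apply, Pi.smul_apply, smul_eq_mul, Pi.zero_apply] at h5 h6 ⊢
    nlinarith

/-- The points of the fundamental chamber which are used. -/
def Core (M : CoxeterMatrix B) (a : B → ℝ) : Prop := 0 ≤ a ∧ ∀ u, Anti M u → ht u ≤ u ⬝ᵥ a

lemma core_one : Core M (fun _ => 1) := by
  refine ⟨fun _ => zero_le_one, fun u _ => ?_⟩
  simp [ht, dotProduct]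

lemma core_dual {a : B → ℝ} (ha : Core M a) {u : B → ℝ} (hu : Anti M u) (w : W) :
    ht u ≤ u ⬝ᵥ dual cs w a := by
  rw [dot_dual]
  have h1 := anti_geo cs hu _ w⁻¹ rfl
  have h2 : 0 ≤ (geo cs w⁻¹ u - u) ⬝ᵥ a :=
    Finset.sum_nonneg fun i _ => mul_nonneg (h1 i) (ha.1 i)
  rw [sub_dotProduct] at h2
  have := ha.2 u hu
  linarith

lemma core_mid {a b : B → ℝ} (ha : Core M a) (hb : Core M b) (w w' : W)
    (h : 0 ≤ dual cs w⁻¹ a + dual cs w' b) :
    Core M ((1 / 2 : ℝ) • (dual cs w⁻¹ a + dual cs w' b)) := by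
  refine ⟨fun i => ?_, fun u hu => ?_⟩
  · have := h i
    simp only [Pi.smul_apply, smul_eq_mul, Pi.zero_apply] at this ⊢
    linarith
  · rw [dotProduct_smul, dotProduct_add, smul_eq_mul]
    have h1 := core_dual cs ha hu w⁻¹
    have h2 := core_dual cs hb hu w'
    linarith

/-- The simplex of the vectors of type `J`. -/
def Simp (J : Set B) : Set (B → ℝ) := {u | 0 ≤ u ∧ ht u = 1 ∧ ∀ j, j ∉ J → u j = 0}

lemma continuous_ht : Continuous (ht : (B → ℝ) → ℝ) := by
  unfold ht
  fun_prop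

lemma simp_compact (J : Set B) : IsCompact (Simp J) := by
  have h1 : IsCompact (Set.univ.pi fun _ : B => Set.Icc (0 : ℝ) 1) :=
    isCompact_univ_pi fun _ => isCompact_Icc
  refine h1.of_isClosed_subset ?_ ?_
  · have e : Simp J = {u : B → ℝ | 0 ≤ u} ∩ ({u | ht u = 1} ∩ ⋂ j ∈ Jᶜ, {u | u j = 0}) := by
      ext u
      simp [Simp]
    rw [e]
    refine IsClosed.inter ?_ (IsClosed.inter ?_ ?_)
    · exact isClosed_le continuous_const continuous_id
    · exact isClosed_eq continuous_ht continuous_const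
    · exact isClosed_biInter fun j _ => isClosed_eq (continuous_apply j) continuous_const
  · rintro u ⟨h0, h1, -⟩ i _
    refine ⟨h0 i, ?_⟩
    rw [← h1]
    exact Finset.single_le_sum (f := fun i => u i) (fun i _ => h0 i) (Finset.mem_univ i)

lemma continuous_q : Continuous fun u : B → ℝ => bf M u u := by
  have : (fun u : B → ℝ => bf M u u) = fun u => ∑ i, u i * ∑ j, (-2 * cc M i j) * u j := by
    funext u
    rw [bf_apply]
    simp only [coroot_apply]
  rw [this]
  fun_prop

lemma bf_sum_ee (u v : B → ℝ) : bf M u v = ∑ s, v s * bf M u (ee s) := by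
  rw [bf_symm, bf_apply]
  refine Finset.sum_congr rfl fun s _ => ?_
  rw [bf_symm u, bf_ee]

/-- `bf M u (ee s) ≤ 0` if `s` is not in the support of `u ≥ 0`. -/
lemma bf_le_of_zero {u : B → ℝ} (hu : 0 ≤ u) {s : B} (hs : u s = 0) : bf M u (ee s) ≤ 0 := by
  rw [bf_symm, bf_ee, coroot_apply]
  refine Finset.sum_nonpos fun j _ => ?_
  by_cases hj : s = j
  · rw [← hj, hs, mul_zero]
  · have := cc_nonneg (M := M) hj
    have h2 := hu j
    simp only [Pi.zero_apply] at h2
    nlinarith

lemma exists_anti_or_pos (J : Set B) (hJ : J.Nonempty) :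
    (∃ u, Anti M u ∧ u ≠ 0 ∧ ∀ j, j ∉ J → u j = 0) ∨
    ∃ c : ℝ, 0 < c ∧ ∀ u ∈ Simp J, c ≤ bf M u u := by
  obtain ⟨s0, hs0⟩ := hJ
  have hne : (Simp J).Nonempty := by
    refine ⟨ee s0, ee_nonneg s0, ht_ee s0, fun j hj => ?_⟩
    have : j ≠ s0 := by rintro rfl; exact hj hs0
    simp [ee, this]
  obtain ⟨u, hu, hmin⟩ := (simp_compact J).exists_isMinOn hne
    (continuous_q (M := M)).continuousOn
  have hmin' : ∀ v ∈ Simp J, bf M u u ≤ bf M v v := fun v hv => hmin hv
  by_cases hq : 0 < bf M u u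
  · exact Or.inr ⟨_, hq, hmin'⟩
  left
  push Not at hq
  refine ⟨u, ⟨hu.1, ?_⟩, ?_, hu.2.2⟩
  swap
  · rintro rfl
    have := hu.2.1
    simp [ht] at this
  -- the first order condition
  have h1 : ∀ t ∈ J, bf M u u ≤ bf M u (ee t) := by
    intro t ht'
    by_contra hc
    push Not at hc
    set q := bf M u u with hqd
    set β := bf M u (ee t) with hβ
    have hD : 0 < q - β := by linarith
    set ε : ℝ := min 1 ((q - β) / (|q - 2 * β + 2| + 1)) with hε
    have hε0 : 0 < ε := lt_min one_pos (by positivity)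
    have hε1 : ε ≤ 1 := min_le_left _ _
    have hε2 : ε * (q - 2 * β + 2) < 2 * (q - β) := by
      have h2 : ε * (|q - 2 * β + 2| + 1) ≤ q - β := by
        have h3 : ε ≤ (q - β) / (|q - 2 * β + 2| + 1) := min_le_right _ _
        rwa [le_div_iff₀ (by positivity)] at h3
      have h3 : ε * (q - 2 * β + 2) ≤ ε * (|q - 2 * β + 2| + 1) :=
        mul_le_mul_of_nonneg_left (by have := le_abs_self (q - 2 * β + 2); linarith) hε0.le
      linarith
    have hv : (1 - ε) • u + ε • (ee t : B → ℝ) ∈ Simp J := by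
      refine ⟨?_, ?_, ?_⟩
      · exact add_nonneg (smul_nonneg (by linarith) hu.1) (smul_nonneg hε0.le (ee_nonneg t))
      · rw [ht_add, ht_smul, ht_smul, ht_ee, hu.2.1]
        ring
      · intro j hj
        have hjt : j ≠ t := by rintro rfl; exact hj ht'
        simp [ee, hu.2.2 j hj, hjt]
    have h2 := hmin' _ hv
    have e : bf M ((1 - ε) • u + ε • (ee t : B → ℝ)) ((1 - ε) • u + ε • (ee t : B → ℝ)) =
        (1 - ε) ^ 2 * q + 2 * ε * (1 - ε) * β + 2 * ε ^ 2 := by
      simp only [map_add, map_smul, LinearMap.add_apply, LinearMap.smul_apply, smul_eq_mul,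
        bf_ee_self, bf_symm (ee t) u]
      rw [← hqd, ← hβ]
      ring
    rw [e] at h2
    nlinarith
  -- equality on the support
  have h2 : ∀ s, u s ≠ 0 → bf M u (ee s) = bf M u u := by
    have h3 : ∑ s, u s * (bf M u (ee s) - bf M u u) = 0 := by
      simp only [mul_sub, Finset.sum_sub_distrib]
      rw [← bf_sum_ee, ← Finset.sum_mul]
      have : ∑ i, u i = 1 := hu.2.1
      rw [this]
      ring
    have h4 : ∀ s ∈ Finset.univ, 0 ≤ u s * (bf M u (ee s) - bf M u u) := by
      intro s _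
      by_cases hs : s ∈ J
      · exact mul_nonneg (hu.1 s) (sub_nonneg.2 (h1 s hs))
      · rw [hu.2.2 s hs, zero_mul]
    intro s hs
    have h5 := (Finset.sum_eq_zero_iff_of_nonneg h4).1 h3 s (Finset.mem_univ s)
    rcases mul_eq_zero.1 h5 with h | h
    · exact absurd h hs
    · linarith
  intro s
  by_cases hs : u s = 0
  · exact bf_le_of_zero hu.1 hs
  · rw [h2 s hs]
    exact hq

lemma bf_abs_le (x : B → ℝ) : bf M (fun i => |x i|) (fun i => |x i|) ≤ bf M x x := by
  rw [bf_apply, bf_apply]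
  simp only [coroot_apply, Finset.mul_sum]
  refine Finset.sum_le_sum fun i _ => Finset.sum_le_sum fun j _ => ?_
  by_cases hij : i = j
  · subst hij
    rw [cc_self]
    have := abs_mul_abs_self (x i)
    nlinarith
  · have h1 := cc_nonneg (M := M) hij
    have h2 : x i * x j ≤ |x i| * |x j| := by
      rw [← abs_mul]
      exact le_abs_self _
    nlinarith

lemma bf_ge {J : Set B} {c : ℝ} (hc : ∀ u ∈ Simp J, c ≤ bf M u u) {x : B → ℝ}
    (hx : ∀ j, j ∉ J → x j = 0) : c * (∑ i, |x i|) ^ 2 ≤ bf M x x := by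
  set A := ∑ i, |x i| with hA
  have hA0 : 0 ≤ A := Finset.sum_nonneg fun i _ => abs_nonneg _
  rcases hA0.eq_or_lt with h | h
  · have hx0 : x = 0 := by
      funext i
      have := (Finset.sum_eq_zero_iff_of_nonneg fun i _ => abs_nonneg (x i)).1 h.symm i
        (Finset.mem_univ i)
      exact abs_eq_zero.1 this
    rw [← h, hx0]
    simp
  · refine le_trans ?_ (bf_abs_le x)
    have h1 : A⁻¹ • (fun i => |x i|) ∈ Simp J := by
      refine ⟨?_, ?_, ?_⟩
      · exact smul_nonneg (inv_nonneg.2 hA0) fun i => abs_nonneg _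
      · rw [ht_smul]
        show A⁻¹ * A = 1
        exact inv_mul_cancel₀ h.ne'
      · intro j hj
        simp [hx j hj]
    have h2 := hc _ h1
    simp only [map_smul, LinearMap.smul_apply, smul_eq_mul] at h2
    rw [← mul_assoc] at h2
    have h3 : c * A ^ 2 ≤ A⁻¹ * A⁻¹ * bf M (fun i => |x i|) (fun i => |x i|) * A ^ 2 :=
      mul_le_mul_of_nonneg_right h2 (by positivity)
    have h4 : A⁻¹ * A⁻¹ * bf M (fun i => |x i|) (fun i => |x i|) * A ^ 2 =
        bf M (fun i => |x i|) (fun i => |x i|) := by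
      field_simp
    linarith

lemma geo_supp {J : Set B} {w : W} (hw : w ∈ Par cs J) {s : B} (hs : s ∈ J) {j : B}
    (hj : j ∉ J) : geo cs w (ee s) j = 0 := by
  rw [par_geo hw _ j hj]
  have : j ≠ s := by rintro rfl; exact hj hs
  simp [ee, this]

lemma par_finite_of_pos {J : Set B} {c : ℝ} (hc0 : 0 < c) (hc : ∀ u ∈ Simp J, c ≤ bf M u u) :
    ((Par cs J : Subgroup W) : Set W).Finite := by
  classical
  -- the roots are bounded
  obtain ⟨R, hR⟩ : ∃ R : ℝ, 2 / c ≤ R ^ 2 ∧ 0 ≤ R := ⟨2 / c + 1, by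
    have : 0 < 2 / c := by positivity
    nlinarith, by positivity⟩
  have hroot : ∀ w ∈ Par cs J, ∀ s ∈ J, ∑ i, |geo cs w (ee s) i| ≤ R := by
    intro w hw s hs
    have h1 := bf_ge (M := M) hc (x := geo cs w (ee s)) fun j hj => geo_supp cs hw hs hj
    rw [bf_geo, bf_ee_self] at h1
    have h2 : (∑ i, |geo cs w (ee s) i|) ^ 2 ≤ R ^ 2 := by
      have h3 : (∑ i, |geo cs w (ee s) i|) ^ 2 ≤ 2 / c := by
        rw [le_div_iff₀ hc0]
        linarith
      linarith [hR.1]
    exact le_of_sq_le_sq h2 hR.2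
  -- the invariants
  let cw : W → B → ℝ := fun w s => if s ∈ J then ht (geo cs w⁻¹ (ee s)) else 0
  have hcw : ∀ w ∈ Par cs J, ∀ s, |cw w s| ≤ R := by
    intro w hw s
    by_cases hs : s ∈ J
    · simp only [cw, if_pos hs]
      exact (Finset.abs_sum_le_sum_abs _ _).trans (hroot _ (Subgroup.inv_mem _ hw) s hs)
    · simp only [cw, if_neg hs, abs_zero]
      exact hR.2
  obtain ⟨N, hN⟩ := exists_nat_gt R
  have hN0 : (0 : ℝ) < N := lt_of_le_of_lt hR.2 hN
  let fl : W → B → ℤ := fun w s => ⌊(N : ℝ) * cw w s⌋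
  have himg : (fl '' (Par cs J : Set W)).Finite := by
    have h1 : (Set.univ.pi fun _ : B => Set.Icc (-((N : ℤ) * N + 1)) ((N : ℤ) * N + 1)).Finite :=
      Set.Finite.pi fun _ => Set.finite_Icc _ _
    refine h1.subset ?_
    rintro _ ⟨w, hw, rfl⟩ s _
    have h2 := abs_le.1 (hcw w hw s)
    have h3 : (N : ℝ) * cw w s ≤ N * N := mul_le_mul_of_nonneg_left (by linarith [h2.2]) hN0.le
    have h4 : -((N : ℝ) * N) ≤ (N : ℝ) * cw w s := by nlinarith [h2.1]
    constructor
    · have h5 : -((N : ℤ) * N + 1) ≤ ⌊(N : ℝ) * cw w s⌋ := by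
        apply Int.le_floor.2
        push_cast
        linarith
      exact h5
    · have h5 : ⌊(N : ℝ) * cw w s⌋ ≤ (N : ℤ) * N + 1 := by
        have h6 := Int.floor_le ((N : ℝ) * cw w s)
        have h7 : ((⌊(N : ℝ) * cw w s⌋ : ℤ) : ℝ) ≤ (((N : ℤ) * N + 1 : ℤ) : ℝ) := by
          push_cast
          linarith
        exact_mod_cast h7
      exact h5
  refine Set.Finite.of_finite_image himg ?_
  intro w hw w' hw' hww
  by_contra hne
  set u := w⁻¹ * w' with hu
  have hu1 : u ≠ 1 := by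
    intro h
    apply hne
    have : w * u = w' := by rw [hu, mul_inv_cancel_left]
    rw [h, mul_one] at this
    exact this
  have huJ : u ∈ Par cs J := Subgroup.mul_mem _ (Subgroup.inv_mem _ hw) hw'
  obtain ⟨j, hj, hjl⟩ := par_ldescent huJ hu1
  have h1 : geo cs u⁻¹ (ee j) ≤ 0 := by
    apply geo_nonpos
    rw [← cs.length_inv (u⁻¹ * cs.simple j), mul_inv_rev, inv_inv, cs.inv_simple, cs.length_inv]
    exact hjl
  have h2 : ht (geo cs u⁻¹ (ee j)) ≤ 0 := Finset.sum_nonpos fun i _ => h1 i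
  set y := geo cs w (ee j) with hy
  have hye : y = ∑ s, y s • (ee s : B → ℝ) := by
    funext k
    simp [ee, Finset.sum_apply, Pi.single_apply]
  have hyJ : ∀ s, s ∉ J → y s = 0 := fun s hs => geo_supp cs hw hj hs
  have hht : ∀ v : W, ht (geo cs v⁻¹ y) = ∑ s, y s * cw v s := by
    intro v
    have e1 : geo cs v⁻¹ y = ∑ s, y s • geo cs v⁻¹ (ee s) := by
      conv_lhs => rw [hye]
      rw [map_sum]
      simp only [map_smul]
    rw [e1]
    have e2 : ht (∑ s, y s • geo cs v⁻¹ (ee s)) = ∑ s, y s * ht (geo cs v⁻¹ (ee s)) := by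
      simp only [ht, Finset.sum_apply, Pi.smul_apply, smul_eq_mul, Finset.mul_sum]
      rw [Finset.sum_comm]
    rw [e2]
    refine Finset.sum_congr rfl fun s _ => ?_
    by_cases hs : s ∈ J
    · simp only [cw, if_pos hs]
    · rw [hyJ s hs, zero_mul, zero_mul]
  have h3 : ht (geo cs w⁻¹ y) = 1 := by
    rw [hy, geo_inv_apply, ht_ee]
  have h4 : geo cs w'⁻¹ y = geo cs u⁻¹ (ee j) := by
    rw [hy, ← Module.End.mul_apply, ← map_mul, hu, mul_inv_rev, inv_inv]
  have h5 : 1 ≤ ∑ s, y s * (cw w s - cw w' s) := by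
    simp only [mul_sub, Finset.sum_sub_distrib]
    rw [← hht, ← hht, h3, h4]
    linarith
  have h6 : ∀ s, |cw w s - cw w' s| * N ≤ 1 := by
    intro s
    have e1 : ⌊(N : ℝ) * cw w s⌋ = ⌊(N : ℝ) * cw w' s⌋ := congrFun hww s
    have e2 := Int.abs_sub_lt_one_of_floor_eq_floor e1
    rw [← mul_sub, abs_mul, abs_of_pos hN0] at e2
    linarith
  have h7 : (∑ s, y s * (cw w s - cw w' s)) * N ≤ R := by
    rw [Finset.sum_mul]
    refine le_trans (Finset.sum_le_sum fun s _ => ?_) (hroot w hw j hj)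
    calc y s * (cw w s - cw w' s) * N ≤ |y s * (cw w s - cw w' s) * N| := le_abs_self _
      _ = |y s| * (|cw w s - cw w' s| * N) := by
        rw [abs_mul, abs_mul, abs_of_pos hN0, mul_assoc]
      _ ≤ |y s| * 1 := mul_le_mul_of_nonneg_left (h6 s) (abs_nonneg _)
      _ = |y s| := mul_one _
  nlinarith

/-- The small coordinates have spherical type. -/
lemma core_finite {a : B → ℝ} (ha : Core M a) {t : ℝ} (ht1 : t < 1) :
    ((Par cs {s | a s ≤ t} : Subgroup W) : Set W).Finite := by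
  rcases Set.eq_empty_or_nonempty {s | a s ≤ t} with h | h
  · rw [h]
    have : (Par cs (∅ : Set B) : Subgroup W) = ⊥ := by
      unfold Par
      rw [Set.image_empty, Subgroup.closure_empty]
    rw [this]
    simp
  rcases exists_anti_or_pos (M := M) {s | a s ≤ t} h with ⟨u, hu, hu0, huJ⟩ | ⟨c, hc0, hc⟩
  · exfalso
    have h1 := ha.2 u hu
    have h2 : u ⬝ᵥ a ≤ t * ht u := by
      rw [ht, Finset.mul_sum]
      refine Finset.sum_le_sum fun s _ => ?_
      by_cases hs : a s ≤ t
      · have := hu.1 s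
        simp only [Pi.zero_apply] at this
        nlinarith
      · rw [huJ s hs]
        simp
    have h3 : 0 < ht u := by
      refine (ht_nonneg hu.1).lt_of_ne fun h4 => hu0 ?_
      funext i
      exact (Finset.sum_eq_zero_iff_of_nonneg fun i _ => hu.1 i).1 h4.symm i (Finset.mem_univ i)
    nlinarith
  · exact par_finite_of_pos cs hc0 hc

end Pool.Agent.H818.Bd
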