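import Pool.Agent.H818.Bd.Defs
import Pool.Agent.H818.Bd.Sph

/-!
# Buildings of arbitrary thickness as `W`-metric spaces
-/

set_option autoImplicit false
set_option linter.unusedSectionVars false

namespace Pool.Agent.H818.Bd

open CoxeterSystem Pool.Agent.Helper703.Cox Pool.Agent.TH5.BD Pool.Agent.Y476.ZB

variable {B : Type*} {M : CoxeterMatrix B} {W : Type*} [Group W]
variable {cs : CoxeterSystem M W} {C : Type*} (b : Building cs C)

namespace Building

lemma δ_self (x : C) : b.δ x x = 1 := (b.δ_eq_one_iff x x).2 rfl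

lemma simple_ne_one (s : B) : cs.simple s ≠ 1 := by
  intro h
  have := cs.length_simple s
  rw [h, cs.length_one] at this
  omega

lemma symm_simple {s : B} {x y : C} (h : b.δ x y = cs.simple s) : b.δ y x = cs.simple s := by
  have hne : x ≠ y := by
    rintro rfl
    rw [b.δ_self] at h
    exact simple_ne_one s h.symm
  have h2 : b.δ y x ≠ 1 := fun h => hne ((b.δ_eq_one_iff _ _).1 h).symm
  rcases b.δ_mem s x y x h with h1 | h1
  · rw [b.δ_self] at h1
    have := congrArg (fun w => cs.simple s * w) h1
    simpa using this.symm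
  · rw [b.δ_self] at h1
    exact absurd h1.symm h2

/-- `δ a c = u v` if `δ a b = u`, `δ b c = v` and the lengths add -/
lemma prod : ∀ (n : ℕ) (a d c : C), cs.length (b.δ a d) = n →
    cs.length (b.δ a d * b.δ d c) = cs.length (b.δ a d) + cs.length (b.δ d c) →
    b.δ a c = b.δ a d * b.δ d c := by
  intro n
  induction n with
  | zero =>
    intro a d c h0 _
    rw [cs.length_eq_zero_iff] at h0
    have := (b.δ_eq_one_iff _ _).1 h0
    subst this
    rw [h0, one_mul]
  | succ n ih =>
    intro a d c hn hl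
    obtain ⟨s, hs⟩ : ∃ s, cs.length (cs.simple s * b.δ a d) < cs.length (b.δ a d) := by
      have h1 : b.δ a d ≠ 1 := by
        intro h
        rw [h, cs.length_one] at hn
        omega
      obtain ⟨s, hs⟩ := cs.exists_leftDescent_of_ne_one h1
      exact ⟨s, hs⟩
    obtain ⟨a', h1, h2⟩ := b.exists_δ s a d
    have hl1 : cs.length (b.δ a' d) = n := by
      rw [h2]
      rcases cs.length_simple_mul (b.δ a d) s with h | h <;> omega
    have e1 : b.δ a d = cs.simple s * b.δ a' d := by
      rw [h2, cs.simple_mul_simple_cancel_left]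
    have h3 := cs.length_mul_le (b.δ a' d) (b.δ d c)
    have h4 : cs.length (cs.simple s * (b.δ a' d * b.δ d c)) ≤
        cs.length (b.δ a' d * b.δ d c) + 1 := by
      rcases cs.length_simple_mul (b.δ a' d * b.δ d c) s with h | h <;> omega
    rw [← mul_assoc, ← e1] at h4
    have h5 := ih a' d c hl1 (by omega)
    have h6 := b.δ_eq s a a' c (b.symm_simple h1) (by
      rw [h5, ← mul_assoc, ← e1]
      omega)
    rw [h6, h5, ← mul_assoc, ← e1]

lemma δ_prod {a d c : C}
    (h : cs.length (b.δ a d * b.δ d c) = cs.length (b.δ a d) + cs.length (b.δ d c)) :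
    b.δ a c = b.δ a d * b.δ d c := b.prod _ a d c rfl h

lemma symm_aux : ∀ (n : ℕ) (x y : C), cs.length (b.δ x y) = n → b.δ y x = (b.δ x y)⁻¹ := by
  intro n
  induction n with
  | zero =>
    intro x y h0
    rw [cs.length_eq_zero_iff] at h0
    have := (b.δ_eq_one_iff _ _).1 h0
    subst this
    rw [h0, inv_one]
  | succ n ih =>
    intro x y hn
    obtain ⟨s, hs⟩ : ∃ s, cs.length (cs.simple s * b.δ x y) < cs.length (b.δ x y) := by
      have h1 : b.δ x y ≠ 1 := by
        intro h
        rw [h, cs.length_one] at hn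
        omega
      obtain ⟨s, hs⟩ := cs.exists_leftDescent_of_ne_one h1
      exact ⟨s, hs⟩
    obtain ⟨x', h1, h2⟩ := b.exists_δ s x y
    have hl1 : cs.length (b.δ x' y) = n := by
      rw [h2]
      rcases cs.length_simple_mul (b.δ x y) s with h | h <;> omega
    have h3 := ih x' y hl1
    have e1 : b.δ x y = cs.simple s * b.δ x' y := by
      rw [h2, cs.simple_mul_simple_cancel_left]
    have e2 : (b.δ x y)⁻¹ = b.δ y x' * b.δ x' x := by
      rw [h3, h1, e1, mul_inv_rev, cs.inv_simple]
    rw [e2]
    apply b.δ_prod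
    rw [← e2, cs.length_inv, h3, cs.length_inv, h1, cs.length_simple]
    omega

lemma symm (x y : C) : b.δ y x = (b.δ x y)⁻¹ := b.symm_aux _ x y rfl

lemma mem_right {s : B} {a x y : C} (h : b.δ x y = cs.simple s) :
    b.δ a y = b.δ a x * cs.simple s ∨ b.δ a y = b.δ a x := by
  rcases b.δ_mem s y x a (b.symm_simple h) with h1 | h1
  · left
    rw [b.symm y a, h1, mul_inv_rev, cs.inv_simple, ← b.symm]
  · right
    rw [b.symm y a, h1, ← b.symm]

lemma eq_right {s : B} {a x y : C} (h : b.δ x y = cs.simple s)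
    (hl : cs.length (b.δ a x * cs.simple s) = cs.length (b.δ a x) + 1) :
    b.δ a y = b.δ a x * cs.simple s := by
  rw [← h]
  apply b.δ_prod
  rw [h, hl, cs.length_simple]

lemma exists_right (s : B) (a x : C) : ∃ y, b.δ x y = cs.simple s ∧
    b.δ a y = b.δ a x * cs.simple s := by
  obtain ⟨y, h1, h2⟩ := b.exists_δ s x a
  refine ⟨y, b.symm_simple h1, ?_⟩
  rw [b.symm y a, h2, mul_inv_rev, cs.inv_simple, ← b.symm]

/-- A chamber between `x` and `y`. -/
lemma exists_between : ∀ (n : ℕ) (x y : C) (w w' : W), cs.length w = n → b.δ x y = w * w' →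
    cs.length (w * w') = cs.length w + cs.length w' → ∃ z, b.δ x z = w ∧ b.δ z y = w' := by
  intro n
  induction n with
  | zero =>
    intro x y w w' h0 h _
    rw [cs.length_eq_zero_iff] at h0
    rw [h0, one_mul] at h
    exact ⟨x, by rw [b.δ_self, h0], h⟩
  | succ n ih =>
    intro x y w w' hn h hl
    obtain ⟨s, hs⟩ : ∃ s, cs.length (cs.simple s * w) < cs.length w := by
      have h1 : w ≠ 1 := by
        intro h
        rw [h, cs.length_one] at hn
        omega
      obtain ⟨s, hs⟩ := cs.exists_leftDescent_of_ne_one h1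
      exact ⟨s, hs⟩
    obtain ⟨x', h1, h2⟩ := b.exists_δ s x y
    obtain ⟨v, hv⟩ : ∃ v, v = cs.simple s * w := ⟨_, rfl⟩
    have e : w = cs.simple s * v := by rw [hv, cs.simple_mul_simple_cancel_left]
    rw [← hv] at hs
    have hlv : cs.length w = cs.length v + 1 := by
      rw [e] at hs ⊢
      rcases cs.length_simple_mul v s with h | h <;> omega
    have h3 : b.δ x' y = v * w' := by rw [h2, h, hv, mul_assoc]
    have h4 : cs.length (v * w') = cs.length v + cs.length w' := by
      have h5 := cs.length_mul_le v w'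
      have h6 : cs.length (cs.simple s * (v * w')) ≤ cs.length (v * w') + 1 := by
        rcases cs.length_simple_mul (v * w') s with h | h <;> omega
      rw [← mul_assoc, ← e] at h6
      omega
    obtain ⟨z, hz1, hz2⟩ := ih x' y v w' (by omega) h3 h4
    refine ⟨z, ?_, hz2⟩
    have h5 := b.δ_eq s x x' z (b.symm_simple h1) (by rw [hz1, ← e]; omega)
    rw [h5, hz1, ← e]

/-- The chamber between `x` and `y` is unique. -/
lemma between_unique : ∀ (n : ℕ) (x y z z' : C) (w w' : W), cs.length w = n →
    cs.length (w * w') = cs.length w + cs.length w' → b.δ x z = w → b.δ z y = w' →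
    b.δ x z' = w → b.δ z' y = w' → z = z' := by
  intro n
  induction n with
  | zero =>
    intro x y z z' w w' h0 _ h1 _ h2 _
    rw [cs.length_eq_zero_iff] at h0
    rw [h0, b.δ_eq_one_iff] at h1 h2
    rw [← h1, ← h2]
  | succ n ih =>
    intro x y z z' w w' hn hl h1 h2 h3 h4
    obtain ⟨s, hs⟩ : ∃ s, cs.length (cs.simple s * w) < cs.length w := by
      have h1 : w ≠ 1 := by
        intro h
        rw [h, cs.length_one] at hn
        omega
      obtain ⟨s, hs⟩ := cs.exists_leftDescent_of_ne_one h1
      exact ⟨s, hs⟩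
    obtain ⟨v, hv⟩ : ∃ v, v = cs.simple s * w := ⟨_, rfl⟩
    have e : w = cs.simple s * v := by rw [hv, cs.simple_mul_simple_cancel_left]
    rw [← hv] at hs
    have hlv : cs.length w = cs.length v + 1 := by
      rw [e] at hs ⊢
      rcases cs.length_simple_mul v s with h | h <;> omega
    have hl' : cs.length (v * w') = cs.length v + cs.length w' := by
      have h5 := cs.length_mul_le v w'
      have h6 : cs.length (cs.simple s * (v * w')) ≤ cs.length (v * w') + 1 := by
        rcases cs.length_simple_mul (v * w') s with h | h <;> omega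
      rw [← mul_assoc, ← e] at h6
      omega
    have hsv : cs.length (cs.simple s * v) = cs.length (cs.simple s) + cs.length v := by
      rw [← e, cs.length_simple]
      omega
    obtain ⟨a, ha1, ha2⟩ := b.exists_between 1 x z (cs.simple s) v (cs.length_simple s)
      (by rw [h1, e]) hsv
    obtain ⟨a', ha1', ha2'⟩ := b.exists_between 1 x z' (cs.simple s) v (cs.length_simple s)
      (by rw [h3, e]) hsv
    have hay : b.δ a y = v * w' := by
      rw [← ha2, ← h2]
      apply b.δ_prod
      rw [ha2, h2]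
      exact hl'
    have hay' : b.δ a' y = v * w' := by
      rw [← ha2', ← h4]
      apply b.δ_prod
      rw [ha2', h4]
      exact hl'
    have haa : a = a' := by
      rcases b.δ_mem s a x a' (b.symm_simple ha1) with h | h
      · rw [ha1', cs.simple_mul_simple_self] at h
        exact (b.δ_eq_one_iff _ _).1 h
      · rw [ha1'] at h
        have h5 := b.δ_eq s a a' y h (by
          rw [hay', ← mul_assoc, ← e, hl]
          omega)
        rw [hay, hay'] at h5
        have h6 := congrArg (fun t => t * (v * w')⁻¹) h5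
        simp only [mul_inv_cancel_right, mul_inv_cancel] at h6
        exact absurd h6.symm (simple_ne_one s)
    subst haa
    exact ih a y z z' v w' (by omega) hl' ha2 h2 ha2' h4

lemma par_trans {J : Set B} [Fintype B] [DecidableEq B] : ∀ (n : ℕ) (x y z : C),
    cs.length (b.δ x y) = n → b.δ x y ∈ Par cs J → b.δ y z ∈ Par cs J → b.δ x z ∈ Par cs J := by
  intro n
  induction n with
  | zero =>
    intro x y z h0 _ h2
    rw [cs.length_eq_zero_iff] at h0
    have := (b.δ_eq_one_iff _ _).1 h0
    subst this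
    exact h2
  | succ n ih =>
    intro x y z hn h1 h2
    have hne : b.δ x y ≠ 1 := by
      intro h
      rw [h, cs.length_one] at hn
      omega
    obtain ⟨s, hs, hsl⟩ := par_ldescent h1 hne
    obtain ⟨x', h3, h4⟩ := b.exists_δ s x y
    have h5 : b.δ x' y ∈ Par cs J := by
      rw [h4]
      exact Subgroup.mul_mem _ (simple_mem_par hs) h1
    have h6 : cs.length (b.δ x' y) = n := by
      rw [h4]
      rcases cs.length_simple_mul (b.δ x y) s with h | h <;> omega
    have h7 := ih x' y z h6 h5 h2
    rcases b.δ_mem s x x' z (b.symm_simple h3) with h | h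
    · rw [h]
      exact Subgroup.mul_mem _ (simple_mem_par hs) h7
    · rw [h]
      exact h7

lemma res_eq {J : Set B} [Fintype B] [DecidableEq B] {x y : C} (h : b.δ x y ∈ Par cs J) :
    b.res J x = b.res J y := by
  have h' : b.δ y x ∈ Par cs J := by
    rw [b.symm x y]
    exact Subgroup.inv_mem _ h
  ext z
  exact ⟨fun hz => b.par_trans _ y x z rfl h' hz, fun hz => b.par_trans _ x y z rfl h hz⟩

section conv

variable [Fintype B] [DecidableEq B]

/-- Folding increases `Lw`. -/
lemma Lw_le : ∀ (n : ℕ) (c z y : C), cs.length (b.δ z y) = n → ∀ {e : B → ℝ}, 0 ≤ e →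
    Lw cs (b.δ c z) (dual cs (b.δ z y) e) + Lw cs (b.δ z y) e ≤ Lw cs (b.δ c y) e := by
  intro n
  induction n with
  | zero =>
    intro c z y h0 e _
    rw [cs.length_eq_zero_iff] at h0
    have := (b.δ_eq_one_iff _ _).1 h0
    subst this
    rw [h0, dual_one, Lw_one, add_zero]
  | succ n ih =>
    intro c z y hn e he
    obtain ⟨s, hs⟩ : ∃ s, cs.length (cs.simple s * b.δ z y) < cs.length (b.δ z y) := by
      have h1 : b.δ z y ≠ 1 := by
        intro h
        rw [h, cs.length_one] at hn
        omega
      obtain ⟨s, hs⟩ := cs.exists_leftDescent_of_ne_one h1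
      exact ⟨s, hs⟩
    obtain ⟨z', h1, h2⟩ := b.exists_δ s z y
    have hl1 : cs.length (b.δ z' y) = n := by
      rw [h2]
      rcases cs.length_simple_mul (b.δ z y) s with h | h <;> omega
    have e1 : b.δ z y = cs.simple s * b.δ z' y := by
      rw [h2, cs.simple_mul_simple_cancel_left]
    have h3 := ih c z' y hl1 he
    have h4 : 0 ≤ dual cs (b.δ z' y) e s :=
      dual_nonneg_of_lt cs (by rw [← e1, hl1, hn]; omega) he
    rw [e1, dual_mul, Lw_mul, Lw_simple]
    have h5 : Lw cs (b.δ c z) (dual cs (cs.simple s) (dual cs (b.δ z' y) e)) +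
        dual cs (b.δ z' y) e s ≤ Lw cs (b.δ c z') (dual cs (b.δ z' y) e) := by
      have hzz : b.δ z z' = cs.simple s := b.symm_simple h1
      have key : b.δ c z' = b.δ c z * cs.simple s ∨
          (b.δ c z' = b.δ c z ∧ cs.length (b.δ c z * cs.simple s) < cs.length (b.δ c z)) := by
        rcases cs.length_mul_simple (b.δ c z) s with h | h
        · exact Or.inl (b.eq_right hzz h)
        · rcases b.mem_right (a := c) hzz with h' | h'
          · exact Or.inl h'
          · exact Or.inr ⟨h', by omega⟩
      rcases key with h | ⟨h, h'⟩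
      · rw [h, Lw_mul, Lw_simple]
      · rw [h]
        exact Lw_fold cs h' h4
    linarith

/-- The convex function. -/
noncomputable def Fn (c : C) (x : C) (a : B → ℝ) : ℝ :=
  (2 * Fintype.card B + 1) * Lw cs (b.δ c x) a + hh a

lemma Fn_nonneg (c x : C) {a : B → ℝ} (ha : 0 ≤ a) : 0 ≤ b.Fn c x a :=
  add_nonneg (mul_nonneg (by positivity) (Lw_nonneg cs _ ha)) (hh_nonneg a)

/-- Convexity of `Fn`. -/
lemma Fn_conv (c x y z : C) {a a' : B → ℝ} (ha : 0 ≤ a) (ha' : 0 ≤ a') :
    b.Fn c z ((1 / 2 : ℝ) • (dual cs (b.δ z x) a + dual cs (b.δ z y) a')) +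
      (Lw cs (b.δ z x) a + Lw cs (b.δ z y) a') / 2 +
      ∑ i, (dual cs (b.δ z x) a i - dual cs (b.δ z y) a' i) ^ 2 /
        (16 * (phi (dual cs (b.δ z x) a i) + phi (dual cs (b.δ z y) a' i)) ^ 3) ≤
      (b.Fn c x a + b.Fn c y a') / 2 := by
  have h1 := b.Lw_le _ c z x rfl ha
  have h2 := b.Lw_le _ c z y rfl ha'
  have h3 := hh_dual_le cs (b.δ z x) ha
  have h4 := hh_dual_le cs (b.δ z y) ha'
  set u := dual cs (b.δ z x) a
  set u' := dual cs (b.δ z y) a'
  have h5 : hh ((1 / 2 : ℝ) • (u + u')) + ∑ i, (u i - u' i) ^ 2 /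
      (16 * (phi (u i) + phi (u' i)) ^ 3) ≤ (hh u + hh u') / 2 := by
    simp only [hh]
    rw [← Finset.sum_add_distrib, ← Finset.sum_add_distrib, Finset.sum_div]
    refine Finset.sum_le_sum fun i _ => ?_
    have := phi_conv (u i) (u' i)
    have e : ((1 / 2 : ℝ) • (u + u')) i = (u i + u' i) / 2 := by
      simp only [Pi.smul_apply, Pi.add_apply, smul_eq_mul]
      ring
    rw [e]
    exact this
  unfold Fn
  rw [Lw_smul, Lw_add]
  set n : ℝ := (Fintype.card B : ℝ) with hn
  have hn0 : 0 ≤ n := by positivity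
  have h6 : (2 * n + 1) * (Lw cs (b.δ c z) u + Lw cs (b.δ z x) a) ≤
      (2 * n + 1) * Lw cs (b.δ c x) a := mul_le_mul_of_nonneg_left h1 (by positivity)
  have h7 : (2 * n + 1) * (Lw cs (b.δ c z) u' + Lw cs (b.δ z y) a') ≤
      (2 * n + 1) * Lw cs (b.δ c y) a' := mul_le_mul_of_nonneg_left h2 (by positivity)
  linarith

end conv

end Building

end Pool.Agent.H818.Bd
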