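import Pool.Agent.H818.Bd.Bld
import Pool.Agent.H818.CS.Chain

/-!
# Coarse stabilizers in buildings
-/

set_option autoImplicit false
set_option linter.unusedSectionVars false

namespace Pool.Agent.H818.Bd

open CoxeterSystem Pool.Agent.Helper703.Cox Pool.Agent.TH5.BD Pool.Agent.Y476.ZB
open Pool.Agent.N313.EX Pool.Agent.H818.CS
open scoped Pointwise

variable {B : Type*} {M : CoxeterMatrix B} [Fintype B] [DecidableEq B]
variable {W : Type*} [Group W] {cs : CoxeterSystem M W} {C : Type*} (b : Building cs C)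

/-- The points of the realization of the building. -/
structure Pt (M : CoxeterMatrix B) (C : Type*) where
  ch : C
  pt : B → ℝ
  core : Core M pt

instance {G : Type*} [Group G] [MulAction G C] : MulAction G (Pt M C) where
  smul g p := ⟨g • p.ch, p.pt, p.core⟩
  one_smul p := by
    show (⟨(1 : G) • p.ch, p.pt, p.core⟩ : Pt M C) = p
    rw [one_smul]
  mul_smul g h p := by
    show (⟨(g * h) • p.ch, p.pt, p.core⟩ : Pt M C) = ⟨g • h • p.ch, p.pt, p.core⟩
    rw [mul_smul]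

lemma smul_ch {G : Type*} [Group G] [MulAction G C] (g : G) (p : Pt M C) :
    (g • p).ch = g • p.ch := rfl
lemma smul_pt {G : Type*} [Group G] [MulAction G C] (g : G) (p : Pt M C) :
    (g • p).pt = p.pt := rfl

include b in
lemma exists_midpoint (p q : Pt M C) : ∃ m : Pt M C,
    m.pt = (1 / 2 : ℝ) • (dual cs (b.δ m.ch p.ch) p.pt + dual cs (b.δ m.ch q.ch) q.pt) := by
  obtain ⟨w, w', h1, h2, h3⟩ := exists_mid cs (b.δ p.ch q.ch) p.core.1 q.core.1
  obtain ⟨z, hz1, hz2⟩ := b.exists_between _ p.ch q.ch w w' rfl h1.symm (by rw [h1]; omega)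
  refine ⟨⟨z, _, core_mid cs p.core q.core w w' h3⟩, ?_⟩
  simp only
  rw [b.symm p.ch z, hz1, hz2]

/-- The types of the labels. -/
noncomputable def thr (N : ℕ) (j : ℕ) : ℝ := (j + 1) / (2 * N)

lemma thr_le {N j : ℕ} (hj : j < N) : thr N j ≤ 1 / 2 := by
  have hN : (0 : ℝ) < N := by exact_mod_cast (show 0 < N by omega)
  have : (j : ℝ) + 1 ≤ N := by exact_mod_cast hj
  rw [thr, div_le_div_iff₀ (by positivity) (by norm_num)]
  linarith

lemma le_thr {N : ℕ} (hN : 0 < N) (j : ℕ) : 1 / (2 * (N : ℝ)) ≤ thr N j := by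
  have hN : (0 : ℝ) < N := by exact_mod_cast hN
  rw [thr]
  have : (0 : ℝ) ≤ j := by positivity
  gcongr
  linarith

/-- The labels. -/
noncomputable def lab (N : ℕ) (p : Pt M C) : Set C →₀ ℝ :=
  av N fun j => Finsupp.single (b.res {s | p.pt s ≤ thr N (min j (N - 1))} p.ch) 1

lemma lab_prob {N : ℕ} (hN : 0 < N) (p : Pt M C) : IsProb (lab b N p) :=
  av_prob hN _ fun _ => IsProb.single _

lemma res_smul {G : Type*} [Group G] [MulAction G C] (hδ : ∀ (g : G) x y, b.δ (g • x) (g • y) =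
    b.δ x y) (g : G) (J : Set B) (x : C) : b.res J (g • x) = g • b.res J x := by
  ext y
  rw [Set.mem_smul_set_iff_inv_smul_mem]
  show b.δ (g • x) y ∈ Subgroup.closure (cs.simple '' J) ↔
    b.δ x (g⁻¹ • y) ∈ Subgroup.closure (cs.simple '' J)
  have : b.δ (g • x) y = b.δ x (g⁻¹ • y) := by
    rw [← hδ g x, smul_inv_smul]
  rw [this]

lemma lab_smul {G : Type*} [Group G] [MulAction G C] (hδ : ∀ (g : G) x y, b.δ (g • x) (g • y) =
    b.δ x y) (N : ℕ) (g : G) (p : Pt M C) :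
    lab b N (g • p) = (lab b N p).mapDomain fun R => g • R := by
  unfold lab av
  rw [Finsupp.mapDomain_finsetSum]
  refine Finset.sum_congr rfl fun j _ => ?_
  rw [Finsupp.mapDomain_smul, Finsupp.mapDomain_single]
  simp only [smul_ch, smul_pt, res_smul b hδ]

lemma lab_support {N : ℕ} (hN : 0 < N) {p : Pt M C} {R : Set C} (hR : R ∈ (lab b N p).support) :
    ∃ (J : Set B) (x : C), ((Par cs J : Subgroup W) : Set W).Finite ∧ R = b.res J x := by
  classical
  obtain ⟨j, hj, h⟩ := av_support _ hR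
  rw [Finsupp.mem_support_iff, Finsupp.single_apply] at h
  refine ⟨{s | p.pt s ≤ thr N (min j (N - 1))}, p.ch, core_finite cs p.core ?_, ?_⟩
  · have : thr N (min j (N - 1)) ≤ 1 / 2 := thr_le (by omega)
    linarith
  · by_contra hc
    rw [if_neg (fun h => hc h.symm)] at h
    exact h rfl

/-- At most one threshold lies in a short interval. -/
lemma thr_card {N : ℕ} (hN : 0 < N) {α β : ℝ} (h : |α - β| ≤ 1 / (2 * (N : ℝ))) :
    ((Finset.range N).filter fun j => ¬ (α ≤ thr N j ↔ β ≤ thr N j)).card ≤ 1 := by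
  classical
  rw [Finset.card_le_one]
  have hN' : (0 : ℝ) < N := by exact_mod_cast hN
  -- the statement for `α ≤ β`
  have key : ∀ α β : ℝ, β - α ≤ 1 / (2 * (N : ℝ)) → ∀ i j : ℕ, i < j → α ≤ thr N i →
      ¬ β ≤ thr N j → False := by
    intro α β hαβ i j hij h1 h2
    apply h2
    have h3 : thr N j - thr N i = (j - i) / (2 * N) := by
      unfold thr
      ring
    have h4 : (1 : ℝ) ≤ (j : ℝ) - i := by
      have : (i : ℝ) + 1 ≤ j := by exact_mod_cast hij
      linarith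
    have h5 : 1 / (2 * (N : ℝ)) ≤ (j - i) / (2 * N) := by gcongr
    linarith
  have hab := abs_le.1 h
  intro i hi j hj
  have hi' := (Finset.mem_filter.1 hi).2
  have hj' := (Finset.mem_filter.1 hj).2
  by_contra hne
  have mono : ∀ (γ : ℝ) (i j : ℕ), i < j → γ ≤ thr N i → γ ≤ thr N j := by
    intro γ i j hij h1
    refine h1.trans ?_
    unfold thr
    have : (i : ℝ) ≤ j := by exact_mod_cast hij.le
    gcongr
  -- wlog
  have main : ∀ i j : ℕ, i < j → ¬ (α ≤ thr N i ↔ β ≤ thr N i) →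
      ¬ (α ≤ thr N j ↔ β ≤ thr N j) → False := by
    intro i j hij h1 h2
    by_cases h3 : α ≤ thr N i
    · have h4 := mono α i j hij h3
      have h5 : ¬ β ≤ thr N j := fun h => h2 ⟨fun _ => h, fun _ => h4⟩
      exact key α β (by linarith [hab.1]) i j hij h3 h5
    · have h4 : β ≤ thr N i := by
        by_contra h
        exact h1 ⟨fun h' => absurd h' h3, fun h' => absurd h' h⟩
      have h4' := mono β i j hij h4
      have h5 : ¬ α ≤ thr N j := fun h => h2 ⟨fun _ => h4', fun _ => h⟩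
      exact key β α (by linarith [hab.2]) i j hij h4 h5
  rcases Nat.lt_or_gt_of_ne hne with h1 | h1
  · exact main i j h1 hi' hj'
  · exact main j i h1 hj' hi'

/-- Nearby points have nearly equal labels. -/
lemma lab_close {N : ℕ} (hN : 0 < N) (p q : Pt M C) (z : C)
    (hp : Lw cs (b.δ z p.ch) p.pt ≤ 1 / (2 * (N : ℝ)))
    (hq : Lw cs (b.δ z q.ch) q.pt ≤ 1 / (2 * (N : ℝ)))
    (hpq : ∀ i, |p.pt i - q.pt i| ≤ 1 / (2 * (N : ℝ))) :
    n1 (lab b N p - lab b N q) ≤ 2 * Fintype.card B / N := by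
  classical
  have h := av_close hN
    (fun j => Finsupp.single (b.res {s | p.pt s ≤ thr N (min j (N - 1))} p.ch) (1 : ℝ))
    (fun j => Finsupp.single (b.res {s | q.pt s ≤ thr N (min j (N - 1))} q.ch) (1 : ℝ))
    (fun _ => IsProb.single _) (fun _ => IsProb.single _) (ε := 0) (B := Fintype.card B) le_rfl
    (fun j => ∃ s, ¬ (p.pt s ≤ thr N j ↔ q.pt s ≤ thr N j)) ?_ ?_
  · rw [zero_add] at h
    exact h
  · intro j hj hbad
    push Not at hbad
    have hjm : min j (N - 1) = j := by omega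
    rw [hjm]
    have eJ : {s | p.pt s ≤ thr N j} = {s | q.pt s ≤ thr N j} := by
      ext s
      exact hbad s
    have h1 : b.δ z p.ch ∈ Par cs {s | p.pt s ≤ thr N j} :=
      mem_par_of_Lw cs p.core.1 _ _ rfl (hp.trans (le_thr hN j))
    have h2 : b.δ z q.ch ∈ Par cs {s | q.pt s ≤ thr N j} :=
      mem_par_of_Lw cs q.core.1 _ _ rfl (hq.trans (le_thr hN j))
    rw [← b.res_eq h1, ← b.res_eq h2, eJ, sub_self, n1_zero]
  · have h1 : (Finset.range N).filter (fun j => ∃ s, ¬ (p.pt s ≤ thr N j ↔ q.pt s ≤ thr N j)) ⊆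
        Finset.univ.biUnion fun s : B =>
          (Finset.range N).filter fun j => ¬ (p.pt s ≤ thr N j ↔ q.pt s ≤ thr N j) := by
      intro j hj
      obtain ⟨h1, s, hs⟩ := Finset.mem_filter.1 hj
      exact Finset.mem_biUnion.2 ⟨s, Finset.mem_univ s, Finset.mem_filter.2 ⟨h1, hs⟩⟩
    have h2 := (Finset.card_le_card h1).trans Finset.card_biUnion_le
    have h3 : ∑ s : B, ((Finset.range N).filter fun j =>
        ¬ (p.pt s ≤ thr N j ↔ q.pt s ≤ thr N j)).card ≤ Fintype.card B := by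
      refine (Finset.sum_le_sum fun s _ => thr_card hN (hpq s)).trans ?_
      simp
    exact_mod_cast h2.trans h3

/-- The coarse stabilizers: the convexity condition of the chain argument. -/
lemma loc_conv (c : C) (r : ℝ) {κ : ℝ} (hκ : 0 < κ) : ∃ η : ℝ, 0 < η ∧ ∀ (p q m : Pt M C),
    m.pt = (1 / 2 : ℝ) • (dual cs (b.δ m.ch p.ch) p.pt + dual cs (b.δ m.ch q.ch) q.pt) →
    b.Fn c p.ch p.pt ≤ r → b.Fn c q.ch q.pt ≤ r →
    b.Fn c p.ch p.pt ≤ b.Fn c m.ch m.pt + η → b.Fn c q.ch q.pt ≤ b.Fn c m.ch m.pt + η →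
    Lw cs (b.δ m.ch p.ch) p.pt ≤ κ ∧ Lw cs (b.δ m.ch q.ch) q.pt ≤ κ ∧
      ∀ i, |p.pt i - q.pt i| ≤ κ := by
  set n : ℝ := (Fintype.card B : ℝ) with hn
  have hn0 : 0 ≤ n := by positivity
  set R : ℝ := 2 * |r| + 8 * n + 2 with hR
  have hR0 : 0 < R := by positivity
  refine ⟨min 1 (min (κ / (8 * n + 2)) (κ ^ 2 / (64 * R ^ 3))), by positivity, ?_⟩
  set η := min 1 (min (κ / (8 * n + 2)) (κ ^ 2 / (64 * R ^ 3))) with hη
  have hη0 : 0 < η := by positivity
  have hη1 : η ≤ 1 := min_le_left _ _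
  have hη2 : η * (8 * n + 2) ≤ κ := by
    rw [← le_div_iff₀ (by positivity)]
    exact (min_le_right _ _).trans (min_le_left _ _)
  have hη3 : η * (64 * R ^ 3) ≤ κ ^ 2 := by
    rw [← le_div_iff₀ (by positivity)]
    exact (min_le_right _ _).trans (min_le_right _ _)
  intro p q m hm hp hq hpm hqm
  have h1 := b.Fn_conv c p.ch q.ch m.ch p.core.1 q.core.1
  rw [← hm] at h1
  have hL1 := Lw_nonneg cs (b.δ m.ch p.ch) p.core.1
  have hL2 := Lw_nonneg cs (b.δ m.ch q.ch) q.core.1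
  have hd1 := dual_sub_le cs _ (b.δ m.ch p.ch) rfl p.core.1
  have hd2 := dual_sub_le cs _ (b.δ m.ch q.ch) rfl q.core.1
  have hh1 := hh_dual_le cs (b.δ m.ch p.ch) p.core.1
  have hh2 := hh_dual_le cs (b.δ m.ch q.ch) q.core.1
  have hF1 : hh p.pt ≤ r := by
    have : 0 ≤ (2 * n + 1) * Lw cs (b.δ c p.ch) p.pt :=
      mul_nonneg (by positivity) (Lw_nonneg cs _ p.core.1)
    unfold Building.Fn at hp
    linarith
  have hF2 : hh q.pt ≤ r := by
    have : 0 ≤ (2 * n + 1) * Lw cs (b.δ c q.ch) q.pt :=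
      mul_nonneg (by positivity) (Lw_nonneg cs _ q.core.1)
    unfold Building.Fn at hq
    linarith
  set u := dual cs (b.δ m.ch p.ch) p.pt
  set u' := dual cs (b.δ m.ch q.ch) q.pt
  set L1 := Lw cs (b.δ m.ch p.ch) p.pt
  set L2 := Lw cs (b.δ m.ch q.ch) q.pt
  have hQ : ∀ i, 0 ≤ (u i - u' i) ^ 2 / (16 * (phi (u i) + phi (u' i)) ^ 3) := fun i => by
    have := phi_pos (u i)
    have := phi_pos (u' i)
    positivity
  have hQs : 0 ≤ ∑ i, (u i - u' i) ^ 2 / (16 * (phi (u i) + phi (u' i)) ^ 3) :=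
    Finset.sum_nonneg fun i _ => hQ i
  have hL : L1 + L2 ≤ 2 * η := by linarith
  have hκ2 : 2 * η ≤ κ := by nlinarith
  refine ⟨by linarith, by linarith, fun i => ?_⟩
  have hQi : (u i - u' i) ^ 2 / (16 * (phi (u i) + phi (u' i)) ^ 3) ≤ η := by
    have := Finset.single_le_sum (f := fun i => (u i - u' i) ^ 2 /
      (16 * (phi (u i) + phi (u' i)) ^ 3)) (fun i _ => hQ i) (Finset.mem_univ i)
    linarith
  have hφ1 : phi (u i) ≤ |r| + 4 * n := by
    have h2 := (phi_le_hh u i).trans hh1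
    have h3 : 2 * n * L1 ≤ 2 * n * 2 := by
      refine mul_le_mul_of_nonneg_left ?_ (by positivity)
      linarith
    have := le_abs_self r
    linarith
  have hφ2 : phi (u' i) ≤ |r| + 4 * n := by
    have h2 := (phi_le_hh u' i).trans hh2
    have h3 : 2 * n * L2 ≤ 2 * n * 2 := by
      refine mul_le_mul_of_nonneg_left ?_ (by positivity)
      linarith
    have := le_abs_self r
    linarith
  have hφ : phi (u i) + phi (u' i) ≤ R := by linarith
  have hφ0 : 0 < phi (u i) + phi (u' i) := add_pos (phi_pos _) (phi_pos _)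
  have h2 : (u i - u' i) ^ 2 ≤ (κ / 2) ^ 2 := by
    rw [div_le_iff₀ (by positivity)] at hQi
    have h3 : (phi (u i) + phi (u' i)) ^ 3 ≤ R ^ 3 := pow_le_pow_left₀ hφ0.le hφ 3
    have h4 : η * (16 * (phi (u i) + phi (u' i)) ^ 3) ≤ η * (16 * R ^ 3) :=
      mul_le_mul_of_nonneg_left (by linarith) hη0.le
    nlinarith
  have h3 : |u i - u' i| ≤ κ / 2 := abs_le_of_sq_le_sq h2 (by positivity)
  have h4 : |u i - p.pt i| ≤ 2 * n * L1 :=
    (Finset.single_le_sum (f := fun i => |u i - p.pt i|) (fun i _ => abs_nonneg _)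
      (Finset.mem_univ i)).trans hd1
  have h5 : |u' i - q.pt i| ≤ 2 * n * L2 :=
    (Finset.single_le_sum (f := fun i => |u' i - q.pt i|) (fun i _ => abs_nonneg _)
      (Finset.mem_univ i)).trans hd2
  have h6 : |p.pt i - q.pt i| ≤ |u i - p.pt i| + |u i - u' i| + |u' i - q.pt i| := by
    have e : p.pt i - q.pt i = -(u i - p.pt i) + (u i - u' i) + (u' i - q.pt i) := by ring
    rw [e]
    refine (abs_add_le _ _).trans (add_le_add ((abs_add_le _ _).trans ?_) le_rfl)
    rw [abs_neg]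
  have h7 : 2 * n * (L1 + L2) ≤ 2 * n * (2 * η) := mul_le_mul_of_nonneg_left hL (by positivity)
  nlinarith

/-- The coarse stabilizers. -/
theorem loc {G : Type*} [Group G] [MulAction G C]
    (hδ : ∀ (g : G) x y, b.δ (g • x) (g • y) = b.δ x y) (c : C) (n : ℕ)
    (F : Finset G) (ε : ℝ) (hε : 0 < ε) :
    ∃ (T : Finset (Set C)) (ν : G → Set C →₀ ℝ),
      (∀ R ∈ T, ∃ (J : Set B) (x : C), ((Par cs J : Subgroup W) : Set W).Finite ∧
        R = b.res J x) ∧
      (∀ g, IsProb (ν g)) ∧ (∀ g, ∀ k ∈ (ν g).support, g⁻¹ • k ∈ T) ∧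
      ∀ g : G, cs.length (b.δ c (g • c)) ≤ n → ∀ f ∈ F,
        cs.length (b.δ c ((g * f) • c)) ≤ n → n1 (ν g - ν (g * f)) ≤ ε := by
  classical
  -- the bound for the convex function
  obtain ⟨r, hr⟩ : ∃ r : ℝ, ∀ w : W, cs.length w ≤ n →
      (2 * Fintype.card B + 1) * Lw cs w (fun _ : B => 1) + hh (fun _ : B => 1) ≤ r := by
    have h1 := ((finite_length_le cs n).image fun w =>
      (2 * (Fintype.card B : ℝ) + 1) * Lw cs w (fun _ : B => 1) + hh (fun _ : B => 1)).bddAbove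
    obtain ⟨r, hr⟩ := h1
    exact ⟨r, fun w hw => hr ⟨w, hw, rfl⟩⟩
  -- the number of thresholds
  set N : ℕ := ⌈4 * (Fintype.card B : ℝ) / ε⌉₊ + 1 with hN
  have hN0 : 0 < N := by omega
  have hN' : (0 : ℝ) < N := by exact_mod_cast hN0
  have hNε : 2 * (Fintype.card B : ℝ) / N ≤ ε / 2 := by
    rw [div_le_iff₀ hN']
    have h1 : 4 * (Fintype.card B : ℝ) / ε ≤ N := by
      rw [hN]
      push_cast
      exact (Nat.le_ceil _).trans (by linarith)
    rw [div_le_iff₀ hε] at h1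
    linarith
  choose m hm using exists_midpoint b (M := M)
  obtain ⟨η, hη, hconv⟩ := loc_conv b c r (κ := 1 / (2 * (N : ℝ))) (by positivity)
  obtain ⟨T, ν, h1, h2, h3, h4⟩ := chain (G := G) m (lab b N) (lab_prob b hN0) (lab_smul b hδ N)
    (fun p => b.Fn c p.ch p.pt) (fun p => b.Fn_nonneg c p.ch p.core.1)
    ⟨c, fun _ => 1, core_one⟩ r F ε hε ⟨η, hη, fun g p q hp hq hpm hqm => by
      have e : (g • m p q).pt = (1 / 2 : ℝ) • (dual cs (b.δ (g • m p q).ch (g • p).ch) (g • p).pt +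
          dual cs (b.δ (g • m p q).ch (g • q).ch) (g • q).pt) := by
        simp only [smul_ch, smul_pt, hδ]
        exact hm p q
      obtain ⟨k1, k2, k3⟩ := hconv (g • p) (g • q) (g • m p q) e hp hq hpm hqm
      exact (lab_close b hN0 _ _ _ k1 k2 k3).trans hNε⟩
  refine ⟨T, ν, fun R hR => ?_, h2, h3, fun g hg f hf hgf => h4 g (hr _ hg) f hf (hr _ hgf)⟩
  obtain ⟨p, hp⟩ := h1 R hR
  exact lab_support b hN0 hp

end Pool.Agent.H818.Bd
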