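import Pool.Agent.H818.Bd.LemM
import Pool.Agent.H818.Bd.Loc

/-!
# Groups acting on buildings
-/

set_option autoImplicit false
set_option linter.unusedSectionVars false

namespace Pool.Agent.H818.Bd

open CoxeterSystem Pool.Agent.Helper703.Cox Pool.Agent.TH5.BD Pool.Agent.Y476.ZB
open Pool.Agent.N313.EX Pool.Agent.H818.CS
open scoped Pointwise

universe u v w z

section

variable {B : Type v} {M : CoxeterMatrix B} [Fintype B] [DecidableEq B]
variable {W : Type w} [Group W] (cs : CoxeterSystem M W)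

include cs in
/-- Coxeter groups have property A: they are linear. -/
theorem cox_propertyA : PropertyA W := by
  rw [propertyA_iff_amInf, ← isExact_iff_amInf]
  refine Pool.Agent.N506.EX.Ex.isExact ?_
  have h1 := Pool.Agent.N506.EX.MEx.field ℝ (Fintype.card B)
  let e := LinearMap.toMatrixAlgEquiv' (R := ℝ) (n := B)
  let e2 := Matrix.reindexAlgEquiv ℝ ℝ (Fintype.equivFin B)
  let f : W →* (Matrix (Fin (Fintype.card B)) (Fin (Fintype.card B)) ℝ)ˣ :=
    MonoidHom.toHomUnits ((e.trans e2 : _ ≃ₐ[ℝ] _).toMulEquiv.toMonoidHom.comp (geo cs))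
  refine h1.of_injective f ?_
  intro x y hxy
  have h2 := congrArg Units.val hxy
  simp only [f, MonoidHom.coe_toHomUnits, MonoidHom.comp_apply] at h2
  exact geo_injective cs ((e.trans e2 : _ ≃ₐ[ℝ] _).injective h2)

variable {cs} {C : Type z} (b : Building cs C)

/-- The walk from `y` to `z`. -/
lemma walk : ∀ (n : ℕ) (c y x : C), cs.length (b.δ y x) = n → ∃ v : W,
    cs.length v ≤ n ∧ b.δ c x = b.δ c y * v := by
  intro n
  induction n with
  | zero =>
    intro c y x h0
    rw [cs.length_eq_zero_iff] at h0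
    have := (b.δ_eq_one_iff _ _).1 h0
    subst this
    exact ⟨1, by rw [cs.length_one], by rw [mul_one]⟩
  | succ n ih =>
    intro c y x hn
    obtain ⟨s, hs⟩ : ∃ s, cs.length (cs.simple s * b.δ y x) < cs.length (b.δ y x) := by
      have h1 : b.δ y x ≠ 1 := by
        intro h
        rw [h, cs.length_one] at hn
        omega
      obtain ⟨s, hs⟩ := cs.exists_leftDescent_of_ne_one h1
      exact ⟨s, hs⟩
    obtain ⟨y', h1, h2⟩ := b.exists_δ s y x
    have hl1 : cs.length (b.δ y' x) = n := by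
      rw [h2]
      rcases cs.length_simple_mul (b.δ y x) s with h | h <;> omega
    obtain ⟨v, hv1, hv2⟩ := ih c y' x hl1
    rcases b.mem_right (a := c) (b.symm_simple h1) with h | h
    · refine ⟨cs.simple s * v, ?_, by rw [hv2, h, mul_assoc]⟩
      have := cs.length_mul_le (cs.simple s) v
      rw [cs.length_simple] at this
      omega
    · exact ⟨v, by omega, by rw [hv2, h]⟩

lemma length_tri (x y z : C) : cs.length (b.δ x z) ≤ cs.length (b.δ x y) + cs.length (b.δ y z) := by
  obtain ⟨v, hv1, hv2⟩ := walk b _ x y z rfl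
  rw [hv2]
  have := cs.length_mul_le (b.δ x y) v
  omega

/-- `z` is the ancestor of type `u` of `x`. -/
def Anc (c : C) (u : W) (x z : C) : Prop :=
  cs.length (b.δ c x) = cs.length u + cs.length (u⁻¹ * b.δ c x) ∧ b.δ c z = u ∧
    b.δ z x = u⁻¹ * b.δ c x

lemma anc_exists {c x : C} {u : W}
    (h : cs.length (b.δ c x) = cs.length u + cs.length (u⁻¹ * b.δ c x)) :
    ∃ z, Anc b c u x z := by
  obtain ⟨z, h1, h2⟩ := b.exists_between _ c x u (u⁻¹ * b.δ c x) rfl
    (by rw [mul_inv_cancel_left]) (by rw [mul_inv_cancel_left]; exact h)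
  exact ⟨z, h, h1, h2⟩

lemma anc_unique {c x z z' : C} {u : W} (h : Anc b c u x z) (h' : Anc b c u x z') : z = z' := by
  obtain ⟨h0, h1, h2⟩ := h
  obtain ⟨-, h3, h4⟩ := h'
  exact b.between_unique _ c x z z' u (u⁻¹ * b.δ c x) rfl
    (by rw [mul_inv_cancel_left]; exact h0) h1 h2 h3 h4

lemma anc_up {c x x' z : C} {u : W} {s : B} (h : Anc b c u x z) (hs : b.δ x x' = cs.simple s)
    (hl : cs.length (b.δ c x * cs.simple s) = cs.length (b.δ c x) + 1)
    (hp : cs.length (b.δ c x * cs.simple s) =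
      cs.length u + cs.length (u⁻¹ * (b.δ c x * cs.simple s))) : Anc b c u x' z := by
  obtain ⟨h0, h1, h2⟩ := h
  have h3 : b.δ c x' = b.δ c x * cs.simple s := b.eq_right hs hl
  refine ⟨by rw [h3]; exact hp, h1, ?_⟩
  rw [h3, ← mul_assoc, ← h2]
  rw [← mul_assoc, ← h2] at hp
  refine b.eq_right hs ?_
  rw [← h2] at h0
  omega

lemma anc_down {c x x' z : C} {u : W} {s : B} (h : Anc b c u x z) (hs : b.δ x x' = cs.simple s)
    (h3 : b.δ c x' = b.δ c x * cs.simple s)
    (hl : cs.length (b.δ c x * cs.simple s) + 1 = cs.length (b.δ c x))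
    (hp : cs.length (b.δ c x * cs.simple s) =
      cs.length u + cs.length (u⁻¹ * (b.δ c x * cs.simple s))) : Anc b c u x' z := by
  obtain ⟨z', hz'⟩ := anc_exists b (c := c) (x := x') (u := u) (by rw [h3]; exact hp)
  have h4 : b.δ c x' * cs.simple s = b.δ c x := by rw [h3, cs.simple_mul_simple_cancel_right]
  have h5 : Anc b c u x z' := by
    refine anc_up b hz' (b.symm_simple hs) ?_ ?_
    · rw [h4, h3]
      omega
    · rw [h4]
      exact h.1
  rw [anc_unique b h h5]
  exact hz'

/-- The ancestor does not change along a panel. -/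
lemma anc_step {c x x' z : C} {u : W} {s : B} (h : Anc b c u x z) (hs : b.δ x x' = cs.simple s)
    (hp : cs.length (b.δ c x * cs.simple s) =
      cs.length u + cs.length (u⁻¹ * (b.δ c x * cs.simple s))) : Anc b c u x' z := by
  rcases cs.length_mul_simple (b.δ c x) s with hl | hl
  · exact anc_up b h hs hl hp
  · rcases b.mem_right (a := c) hs with h3 | h3
    · exact anc_down b h hs h3 hl hp
    · obtain ⟨x2, h4, h5⟩ := b.exists_right s c x
      have h6 := anc_down b h h4 h5 hl hp
      have h7 : b.δ x' x2 = cs.simple s := by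
        rcases b.δ_mem s x' x x2 (b.symm_simple hs) with h8 | h8
        · rw [h4, cs.simple_mul_simple_self] at h8
          have h9 := (b.δ_eq_one_iff _ _).1 h8
          rw [← h9, h3] at h5
          have h10 := congrArg (fun t => (b.δ c x)⁻¹ * t) h5
          simp only [inv_mul_cancel, inv_mul_cancel_left] at h10
          exact absurd h10.symm (Building.simple_ne_one s)
        · rw [h8, h4]
      refine anc_up b h6 (b.symm_simple h7) ?_ ?_
      · rw [h5, cs.simple_mul_simple_cancel_right]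
        omega
      · rw [h5, cs.simple_mul_simple_cancel_right]
        exact h.1

/-- The ancestor does not change in a ball. -/
lemma anc_ball {c : C} {u y : W} {k : ℕ}
    (hu : ∀ v : W, cs.length v ≤ k →
      cs.length (y * v) = cs.length u + cs.length (u⁻¹ * (y * v))) :
    ∀ (n : ℕ) (x x' z : C) (a : W), cs.length (b.δ x x') = n → b.δ c x = y * a →
      cs.length a + n + 1 ≤ k → Anc b c u x z → Anc b c u x' z := by
  intro n
  induction n with
  | zero =>
    intro x x' z a h0 _ _ h
    rw [cs.length_eq_zero_iff] at h0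
    have := (b.δ_eq_one_iff _ _).1 h0
    subst this
    exact h
  | succ n ih =>
    intro x x' z a hn ha hk h
    obtain ⟨s, hs⟩ : ∃ s, cs.length (cs.simple s * b.δ x x') < cs.length (b.δ x x') := by
      have h1 : b.δ x x' ≠ 1 := by
        intro h
        rw [h, cs.length_one] at hn
        omega
      obtain ⟨s, hs⟩ := cs.exists_leftDescent_of_ne_one h1
      exact ⟨s, hs⟩
    obtain ⟨x1, h1, h2⟩ := b.exists_δ s x x'
    have hl1 : cs.length (b.δ x1 x') = n := by
      rw [h2]
      rcases cs.length_simple_mul (b.δ x x') s with h | h <;> omega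
    have h3 := cs.length_mul_simple a s
    have h4 : Anc b c u x1 z := by
      refine anc_step b h (b.symm_simple h1) ?_
      rw [ha, mul_assoc]
      exact hu _ (by omega)
    rcases b.mem_right (a := c) (b.symm_simple h1) with h5 | h5
    · exact ih x1 x' z (a * cs.simple s) hl1 (by rw [h5, ha, mul_assoc]) (by omega) h4
    · exact ih x1 x' z a hl1 (by rw [h5, ha]) (by omega) h4

/-- The control. -/
theorem ctl {G : Type u} [Group G] [MulAction G C]
    (hδ : ∀ (g : G) x y, b.δ (g • x) (g • y) = b.δ x y) (c : C)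
    (F : Finset G) (ε : ℝ) (hε : 0 < ε) :
    ∃ (r : ℕ) (Y : Type (max w z)) (β : G → Y →₀ ℝ), (∀ g, IsProb (β g)) ∧
      (∀ g, ∀ f ∈ F, n1 (β g - β (g * f)) ≤ ε) ∧
      ∀ g h y, y ∈ (β g).support → y ∈ (β h).support →
        cs.length (b.δ c ((g⁻¹ * h) • c)) ≤ r := by
  classical
  obtain ⟨R0, hR0⟩ : ∃ R0 : ℕ, ∀ f ∈ F, cs.length (b.δ c (f • c)) ≤ R0 := by
    obtain ⟨R, hR⟩ := (F.image fun f => cs.length (b.δ c (f • c))).bddAbove
    exact ⟨R, fun f hf => hR (Finset.mem_coe.2 (Finset.mem_image_of_mem _ hf))⟩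
  obtain ⟨E, ξ, h1, h2, h3⟩ := cox_propertyA cs (finite_length_le cs R0).toFinset ε hε
  obtain ⟨k0, hk0⟩ : ∃ k0 : ℕ, ∀ e ∈ E, cs.length e ≤ k0 := by
    obtain ⟨R, hR⟩ := (E.image cs.length).bddAbove
    exact ⟨R, fun f hf => hR (Finset.mem_coe.2 (Finset.mem_image_of_mem _ hf))⟩
  obtain ⟨K, hK⟩ := lemM cs (k0 + R0 + 1)
  choose u hu1 hu2 using hK
  -- the ancestors
  let e : W → C → C := fun y x => if h : ∃ z, Anc b c (u y) x z then h.choose else c
  have he : ∀ y x z, Anc b c (u y) x z → e y x = z := by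
    intro y x z hz
    have h : ∃ z, Anc b c (u y) x z := ⟨z, hz⟩
    simp only [e, dif_pos h]
    exact anc_unique b h.choose_spec hz
  let wg : G → W := fun g => b.δ c (g • c)
  have hxi : ∀ g, ∀ y ∈ (ξ (wg g)).support, ∃ a, cs.length a ≤ k0 ∧ wg g = y * a := by
    intro g y hy
    have h4 := hk0 _ (h2 _ y hy)
    refine ⟨y⁻¹ * wg g, ?_, by group⟩
    rw [← cs.length_inv, mul_inv_rev, inv_inv]
    exact h4
  have hanc : ∀ g, ∀ y ∈ (ξ (wg g)).support, ∃ z, Anc b c (u y) (g • c) z := by
    intro g y hy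
    obtain ⟨a, ha1, ha2⟩ := hxi g y hy
    apply anc_exists
    show cs.length (wg g) = _ + cs.length (_ * wg g)
    rw [ha2]
    exact hu1 y a (by omega)
  refine ⟨2 * (K + k0), W × C, fun g => (ξ (wg g)).mapDomain fun y => (y, e y (g • c)),
    fun g => (h1 _).mapDomain _, ?_, ?_⟩
  · intro g f hf
    have hd : b.δ (g • c) ((g * f) • c) = b.δ c (f • c) := by rw [mul_smul, hδ]
    obtain ⟨v, hv1, hv2⟩ := walk b _ c (g • c) ((g * f) • c) rfl
    have hv : wg (g * f) = wg g * v := hv2
    have hvl : cs.length v ≤ R0 := by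
      rw [hd] at hv1
      exact hv1.trans (hR0 f hf)
    have e1 : (ξ (wg (g * f))).mapDomain (fun y => (y, e y ((g * f) • c))) =
        (ξ (wg (g * f))).mapDomain (fun y => (y, e y (g • c))) := by
      refine Finsupp.mapDomain_congr fun y hy => ?_
      obtain ⟨a, ha1, ha2⟩ := hxi _ y hy
      obtain ⟨z, hz⟩ := hanc _ y hy
      have hd' : cs.length (b.δ ((g * f) • c) (g • c)) ≤ R0 := by
        rw [b.symm (g • c), cs.length_inv, hd]
        exact hR0 f hf
      have h4 := anc_ball b (hu1 y) _ ((g * f) • c) (g • c) z a rfl ha2 (by omega) hz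
      rw [he y _ z hz, he y _ z h4]
    beta_reduce
    rw [e1, ← Finsupp.mapDomain_sub, hv]
    refine (n1_mapDomain_le _ _).trans (h3 _ _ ?_)
    rw [Set.Finite.mem_toFinset]
    exact hvl
  · intro g h p hg hh
    obtain ⟨y, hy, rfl⟩ := Finset.mem_image.1 (Finsupp.mapDomain_support hg)
    obtain ⟨y', hy', hyy⟩ := Finset.mem_image.1 (Finsupp.mapDomain_support hh)
    simp only [Prod.mk.injEq] at hyy
    obtain ⟨rfl, hzz⟩ := hyy
    obtain ⟨z, hz⟩ := hanc g y' hy
    obtain ⟨z', hz'⟩ := hanc h y' hy'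
    rw [he _ _ _ hz, he _ _ _ hz'] at hzz
    subst hzz
    have key : ∀ g', ∀ y ∈ (ξ (wg g')).support, ∀ z, Anc b c (u y) (g' • c) z →
        cs.length (b.δ z (g' • c)) ≤ K + k0 := by
      intro g' y hy z hz
      rw [hz.2.2]
      obtain ⟨a, ha1, ha2⟩ := hxi g' y hy
      have ha2' : b.δ c (g' • c) = y * a := ha2
      rw [ha2', ← mul_assoc]
      have := cs.length_mul_le ((u y)⁻¹ * y) a
      have := hu2 y
      omega
    have k1 := key g _ hy _ hz
    have k2 := key h _ hy' _ hz'
    have e2 : b.δ c ((g⁻¹ * h) • c) = b.δ (g • c) (h • c) := by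
      rw [← hδ g c, mul_smul, smul_inv_smul]
    rw [e2]
    have k3 := length_tri b (g • c) z' (h • c)
    rw [b.symm z' (g • c), cs.length_inv] at k3
    omega

/-- A group that acts on a building of arbitrary thickness has property A if the stabilizers of
the residues of spherical type have property A. -/
theorem propertyA_of_building {G : Type u} [Group G] [MulAction G C] [Nonempty C]
    (hδ : ∀ (g : G) x y, b.δ (g • x) (g • y) = b.δ x y)
    (hst : ∀ (J : Set B) (x : C), ((Subgroup.closure (cs.simple '' J) : Subgroup W) : Set W).Finite →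
      PropertyA (MulAction.stabilizer G (b.res J x))) : PropertyA G := by
  let c : C := Classical.arbitrary C
  refine propertyA_of_coarse (ρ := ℕ) (fun r => {g : G | cs.length (b.δ c (g • c)) ≤ r})
    (fun R : Set C => ∃ (J : Set B) (x : C), ((Par cs J : Subgroup W) : Set W).Finite ∧
      R = b.res J x) ?_ ?_ ?_
  · rintro R ⟨J, x, h1, rfl⟩
    exact hst J x h1
  · intro F ε hε
    exact ctl b hδ c F ε hε
  · intro r F ε hε
    obtain ⟨T, ν, h0, h1, h2, h3⟩ := loc b hδ c r F ε hε
    exact ⟨T, ν, h0, fun g _ => h1 g, fun g _ => h2 g, fun g hg f hf hgf => h3 g hg f hf hgf⟩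

end

end Pool.Agent.H818.Bd
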