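import Mathlib

/-!
# Buildings of arbitrary thickness, residues and their stabilizers
-/

set_option autoImplicit false

namespace Pool.Agent.H818.Bd

/-- A building of type `(W, S)` (Abramenko-Brown, Definition 5.1): a set `C` of chambers with a Weyl
distance `δ : C × C → W` which satisfies the axioms (WD1), (WD2) and (WD3). There is no condition
on the thickness: the panels may be finite or infinite. -/
structure Building {B : Type*} {M : CoxeterMatrix B} {W : Type*} [Group W]
    (cs : CoxeterSystem M W) (C : Type*) where
  /-- the Weyl distance -/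
  δ : C → C → W
  δ_eq_one_iff : ∀ x y, δ x y = 1 ↔ x = y
  δ_mem : ∀ (s : B) (x' x y : C), δ x' x = cs.simple s →
    δ x' y = cs.simple s * δ x y ∨ δ x' y = δ x y
  δ_eq : ∀ (s : B) (x' x y : C), δ x' x = cs.simple s →
    cs.length (cs.simple s * δ x y) = cs.length (δ x y) + 1 → δ x' y = cs.simple s * δ x y
  exists_δ : ∀ (s : B) (x y : C), ∃ x', δ x' x = cs.simple s ∧ δ x' y = cs.simple s * δ x y

variable {B : Type*} {M : CoxeterMatrix B} {W : Type*} [Group W] {cs : CoxeterSystem M W}
  {C : Type*}

/-- The residue of type `J` of the chamber `x`: the chambers `y` with `δ(x, y)` in the subgroup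
`W_J` generated by the simple reflections in `J`. -/
def Building.res (b : Building cs C) (J : Set B) (x : C) : Set C :=
  {y | b.δ x y ∈ Subgroup.closure (cs.simple '' J)}

/-- The stabilizer in `G` of the residue of type `J` of the chamber `x`. -/
def Building.stab (b : Building cs C) (G : Type*) [Group G] [MulAction G C] (J : Set B) (x : C) :
    Subgroup G where
  carrier := {g | ∀ y, g • y ∈ b.res J x ↔ y ∈ b.res J x}
  mul_mem' := fun {g h} hg hh y => by
    rw [mul_smul]
    exact (hg (h • y)).trans (hh y)
  one_mem' := fun y => by rw [one_smul]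
  inv_mem' := fun {g} hg y => by
    have := hg (g⁻¹ • y)
    rw [smul_inv_smul] at this
    exact this.symm

end Pool.Agent.H818.Bd
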