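import Pool.Agent.H818.Bd.Mid

/-!
# Common prefixes of balls in Coxeter groups
-/

set_option autoImplicit false
set_option linter.unusedSectionVars false

namespace Pool.Agent.H818.Bd

open CoxeterSystem Pool.Agent.Helper703.Cox Pool.Agent.TH5.BD Pool.Agent.Y476.ZB

variable {B : Type*} {M : CoxeterMatrix B}
variable {W : Type*} [Group W] (cs : CoxeterSystem M W)

lemma cross_exchange {r s : B} {c : W} (h1 : cs.length (cs.simple r * c) < cs.length c)
    (h2 : cs.length (c * cs.simple s) < cs.length (cs.simple r * (c * cs.simple s))) :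
    cs.simple r * c = c * cs.simple s := by
  have h3 := cs.length_simple_mul c r
  have h4 := cs.length_mul_simple c s
  have h5 := cs.length_simple_mul (c * cs.simple s) r
  have h6 := cs.length_mul_simple (cs.simple r * c) s
  rw [mul_assoc] at h6
  have h7 := exchange_eq cs r s (cs.simple r * c) (by rw [mul_assoc]; omega)
    (by rw [cs.simple_mul_simple_cancel_left]; omega)
    (by rw [cs.simple_mul_simple_cancel_left]; omega)
  rw [cs.simple_mul_simple_cancel_left, mul_assoc] at h7
  conv_lhs => rw [h7]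
  rw [cs.simple_mul_simple_cancel_left]

lemma first_cross (r : B) : ∀ (n : ℕ) (c u : W), cs.length u = n →
    cs.length (cs.simple r * c) < cs.length c →
    cs.length (c * u) < cs.length (cs.simple r * (c * u)) →
    ∃ (u1 : W) (t : B), cs.length u1 ≤ cs.length u ∧
      (c * u1)⁻¹ * cs.simple r * (c * u1) = cs.simple t := by
  intro n
  induction n with
  | zero =>
    intro c u h0 h1 h2
    rw [cs.length_eq_zero_iff] at h0
    rw [h0, mul_one] at h2
    omega
  | succ n ih =>
    intro c u hn h1 h2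
    obtain ⟨s, hs⟩ : ∃ s, cs.length (cs.simple s * u) < cs.length u := by
      have h1 : u ≠ 1 := by
        intro h
        rw [h, cs.length_one] at hn
        omega
      obtain ⟨s, hs⟩ := cs.exists_leftDescent_of_ne_one h1
      exact ⟨s, hs⟩
    obtain ⟨u', hu'⟩ : ∃ u', u' = cs.simple s * u := ⟨_, rfl⟩
    have e : u = cs.simple s * u' := by rw [hu', cs.simple_mul_simple_cancel_left]
    rw [← hu'] at hs
    have hlu : cs.length u = cs.length u' + 1 := by
      rw [e] at hs ⊢
      rcases cs.length_simple_mul u' s with h | h <;> omega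
    by_cases h3 : cs.length (cs.simple r * (c * cs.simple s)) < cs.length (c * cs.simple s)
    · have e2 : c * cs.simple s * u' = c * u := by rw [e, mul_assoc]
      obtain ⟨u1, t, h4, h5⟩ := ih (c * cs.simple s) u' (by omega) h3 (by rw [e2]; exact h2)
      refine ⟨cs.simple s * u1, t, ?_, ?_⟩
      · have := cs.length_mul_le (cs.simple s) u1
        rw [cs.length_simple] at this
        omega
      · rw [← mul_assoc c]
        exact h5
    · have h6 := cs.length_simple_mul (c * cs.simple s) r
      have h4 := cross_exchange cs h1 (by omega : cs.length (c * cs.simple s) < _)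
      refine ⟨1, s, ?_, ?_⟩
      · rw [cs.length_one]
        omega
      · rw [mul_one, mul_assoc, h4, inv_mul_cancel_left]

variable [Fintype B] [DecidableEq B]

/-- The longest elements of the parabolic subgroups have bounded length. -/
lemma exists_N0 : ∃ N0 : ℕ, ∀ (J : Set B) (a : W), a ∈ Par cs J →
    (∀ s ∈ J, cs.length (cs.simple s * a) < cs.length a) → cs.length a ≤ N0 := by
  classical
  have h1 : ∀ J : Set B, ∃ N : ℕ, ∀ a : W, a ∈ Par cs J →
      (∀ s ∈ J, cs.length (cs.simple s * a) < cs.length a) → cs.length a ≤ N := by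
    intro J
    by_cases h : ∃ a : W, a ∈ Par cs J ∧ ∀ s ∈ J, cs.length (cs.simple s * a) < cs.length a
    · obtain ⟨a, ha, ha'⟩ := h
      refine ⟨cs.length a, fun a' h1 _ => ?_⟩
      have h2 : ∀ i ∈ J, cs.length (a⁻¹ * cs.simple i) < cs.length a⁻¹ := by
        intro i hi
        rw [← cs.length_inv (a⁻¹ * cs.simple i), mul_inv_rev, inv_inv, cs.inv_simple,
          cs.length_inv]
        exact ha' i hi
      have h3 := top_mul h2 h1
      rw [cs.length_inv] at h3
      omega
    · exact ⟨0, fun a h1 h2 => absurd ⟨a, h1, h2⟩ h⟩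
  choose N hN using h1
  obtain ⟨N0, hN0⟩ : BddAbove (Set.range N) := (Set.finite_range N).bddAbove
  exact ⟨N0, fun J a h1 h2 => (hN J a h1 h2).trans (hN0 ⟨J, rfl⟩)⟩

/-- The representatives. -/
lemma exists_L0 (J : Finset B) (k : ℕ) : ∃ L0 : ℕ, ∀ w : W,
    (∀ s ∈ J, cs.length (w⁻¹ * cs.simple s * w) ≤ k) →
    ∃ w0 : W, cs.length w0 ≤ L0 ∧
      ∀ s ∈ J, w0⁻¹ * cs.simple s * w0 = w⁻¹ * cs.simple s * w := by
  classical
  let τ : W → B → W := fun w s => if s ∈ J then w⁻¹ * cs.simple s * w else 1
  let P : Set W := {w | ∀ s ∈ J, cs.length (w⁻¹ * cs.simple s * w) ≤ k}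
  have hT : (τ '' P).Finite := by
    have h1 : (Set.univ.pi fun _ : B => {v : W | cs.length v ≤ k}).Finite :=
      Set.Finite.pi fun _ => finite_length_le cs k
    refine h1.subset ?_
    rintro _ ⟨w, hw, rfl⟩ s _
    simp only [Set.mem_ofPred_eq, τ]
    split_ifs with h
    · exact hw s h
    · rw [cs.length_one]
      omega
  have h2 : ∀ t ∈ τ '' P, ∃ w ∈ P, τ w = t := fun t ht => ht
  choose! f hf1 hf2 using h2
  obtain ⟨L0, hL0⟩ := (hT.image fun t => cs.length (f t)).bddAbove
  refine ⟨L0, fun w hw => ⟨f (τ w), hL0 ⟨τ w, ⟨w, hw, rfl⟩, rfl⟩, fun s hs => ?_⟩⟩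
  have h3 := congrFun (hf2 (τ w) ⟨w, hw, rfl⟩) s
  simpa only [τ, if_pos hs] using h3

lemma lemM_aux : ∀ (n : ℕ) (J : Finset B), Fintype.card B - J.card = n → ∀ k : ℕ,
    ∃ K : ℕ, ∀ w : W, (∀ s ∈ J, cs.length (w⁻¹ * cs.simple s * w) ≤ k) →
      (∀ s : B, ∃ v : W, cs.length v ≤ k ∧
        cs.length (w * v) < cs.length (cs.simple s * (w * v))) → cs.length w ≤ K := by
  classical
  intro n
  induction n using Nat.strong_induction_on with
  | _ n ih =>
  intro J hJ k
  obtain ⟨N0, hN0⟩ := exists_N0 cs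
  obtain ⟨L0, hL0⟩ := exists_L0 cs J k
  set k2 : ℕ := max k (2 * (L0 + k + L0) + 1) with hk2
  have hK : ∀ r : B, ∃ K : ℕ, r ∉ J → ∀ w : W,
      (∀ s ∈ insert r J, cs.length (w⁻¹ * cs.simple s * w) ≤ k2) →
      (∀ s : B, ∃ v : W, cs.length v ≤ k2 ∧
        cs.length (w * v) < cs.length (cs.simple s * (w * v))) → cs.length w ≤ K := by
    intro r
    by_cases hr : r ∈ J
    · exact ⟨0, fun h => absurd hr h⟩
    · have h1 : (insert r J).card = J.card + 1 := Finset.card_insert_of_notMem hr
      have h2 : (insert r J).card ≤ Fintype.card B := Finset.card_le_univ _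
      obtain ⟨K, hK⟩ := ih (Fintype.card B - (insert r J).card) (by omega) (insert r J) rfl k2
      exact ⟨K, fun _ => hK⟩
  choose K hK using hK
  obtain ⟨K0, hK0⟩ : BddAbove (Set.range K) := (Set.finite_range K).bddAbove
  refine ⟨max K0 (N0 + L0), fun w hw1 hw2 => ?_⟩
  obtain ⟨w0, hw0, hw0'⟩ := hL0 w hw1
  set c := w * w0⁻¹ with hc
  have hcw : c * w0 = w := by rw [hc, inv_mul_cancel_right]
  have hcomm : ∀ s ∈ J, cs.simple s * c = c * cs.simple s := by
    intro s hs
    have h1 := hw0' s hs
    have h2 : w * (w0⁻¹ * cs.simple s * w0) * w0⁻¹ = w * (w⁻¹ * cs.simple s * w) * w0⁻¹ := by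
      rw [h1]
    have e1 : w * (w0⁻¹ * cs.simple s * w0) * w0⁻¹ = c * cs.simple s := by rw [hc]; group
    have e2 : w * (w⁻¹ * cs.simple s * w) * w0⁻¹ = cs.simple s * c := by rw [hc]; group
    rw [← e1, ← e2, h2]
  have hcommP : ∀ a ∈ Par cs (J : Set B), a * c = c * a := by
    intro a ha
    unfold Par at ha
    induction ha using Subgroup.closure_induction with
    | mem x hx =>
      obtain ⟨s, hs, rfl⟩ := hx
      exact hcomm s hs
    | one => simp
    | mul x y _ _ hx hy => rw [mul_assoc, hy, ← mul_assoc, hx, mul_assoc]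
    | inv x _ hx =>
      have : x⁻¹ * (x * c) * x⁻¹ = x⁻¹ * (c * x) * x⁻¹ := by rw [hx]
      simpa [mul_assoc] using this.symm
  let D : Set B := {s | cs.length (cs.simple s * c) < cs.length c}
  by_cases hD : D ⊆ J
  · -- the first case
    obtain ⟨a, c', e1, hmin, haD, hl⟩ := exists_ldec (cs := cs) D c
    have ha : cs.length a ≤ N0 := by
      refine hN0 D a haD fun s hs => ?_
      have h1 : cs.length (cs.simple s * c) < cs.length c := hs
      have h2 := hmin.mul (Subgroup.mul_mem _ (simple_mem_par (cs := cs) hs) haD)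
      rw [mul_assoc, ← e1] at h2
      omega
    have hac : a * c = c * a := hcommP a (par_mono hD haD)
    have hc'1 : c' = 1 := by
      by_contra hne
      obtain ⟨s, hs⟩ := cs.exists_leftDescent_of_ne_one hne
      have hs' : cs.length (cs.simple s * c') < cs.length c' := hs
      have e2 : c = c' * a := by
        have h3 : c' = a⁻¹ * c := by rw [e1, inv_mul_cancel_left]
        have h4 : a⁻¹ * c = c * a⁻¹ := by
          have : a⁻¹ * (a * c) * a⁻¹ = a⁻¹ * (c * a) * a⁻¹ := by rw [hac]
          simpa [mul_assoc] using this.symm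
        rw [h3, h4, inv_mul_cancel_right]
      have h5 : cs.length (cs.simple s * c) < cs.length c := by
        have h6 := cs.length_mul_le (cs.simple s * c') a
        rw [mul_assoc, ← e2] at h6
        omega
      have h7 := hmin s h5
      omega
    have h1 : c = a := by rw [e1, hc'1, mul_one]
    have h2 := cs.length_mul_le c w0
    rw [hcw, h1] at h2
    exact le_max_of_le_right (by omega)
  · -- the second case
    obtain ⟨r, hrD, hrJ⟩ := Set.not_subset.1 hD
    have hrD' : cs.length (cs.simple r * c) < cs.length c := hrD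
    have hrJ' : r ∉ J := hrJ
    obtain ⟨v, hv, hv'⟩ := hw2 r
    have e1 : c * (w0 * v) = w * v := by rw [← mul_assoc, hcw]
    obtain ⟨u1, t, h1, h2⟩ := first_cross cs r _ c (w0 * v) rfl hrD' (by rw [e1]; exact hv')
    have h3 := cs.length_mul_le w0 v
    have h4 : w⁻¹ * cs.simple r * w = (u1⁻¹ * w0)⁻¹ * cs.simple t * (u1⁻¹ * w0) := by
      rw [← h2, ← hcw]
      group
    have h5 : cs.length (w⁻¹ * cs.simple r * w) ≤ 2 * (L0 + k + L0) + 1 := by
      rw [h4]
      have h6 := cs.length_mul_le ((u1⁻¹ * w0)⁻¹ * cs.simple t) (u1⁻¹ * w0)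
      have h7 := cs.length_mul_le ((u1⁻¹ * w0)⁻¹) (cs.simple t)
      have h8 := cs.length_mul_le u1⁻¹ w0
      rw [cs.length_inv] at h7 h8
      rw [cs.length_simple] at h7
      omega
    have h6 := hK r hrJ' w (fun s hs => ?_) fun s => ?_
    · exact le_max_of_le_left (h6.trans (hK0 ⟨r, rfl⟩))
    · rcases Finset.mem_insert.1 hs with rfl | hs
      · exact h5.trans (le_max_right _ _)
      · exact (hw1 s hs).trans (le_max_left _ _)
    · obtain ⟨v, hv, hv'⟩ := hw2 s
      exact ⟨v, hv.trans (le_max_left _ _), hv'⟩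

/-- The elements of a ball in a Coxeter group have a common prefix near the center. -/
theorem lemM (k : ℕ) : ∃ K : ℕ, ∀ w : W, ∃ u : W,
    (∀ v : W, cs.length v ≤ k → cs.length (w * v) = cs.length u + cs.length (u⁻¹ * (w * v))) ∧
    cs.length (u⁻¹ * w) ≤ K := by
  classical
  obtain ⟨K, hK⟩ := lemM_aux cs _ ∅ rfl k
  refine ⟨K, fun w => ?_⟩
  let S : Set W := {u | ∀ v : W, cs.length v ≤ k →
    cs.length (w * v) = cs.length u + cs.length (u⁻¹ * (w * v))}
  have hS : S.Finite := (finite_length_le cs (cs.length w)).subset fun u hu => by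
    have := hu 1 (by rw [cs.length_one]; omega)
    rw [mul_one] at this
    simp only [Set.mem_ofPred_eq]
    omega
  have hS1 : S.Nonempty := ⟨1, fun v _ => by simp⟩
  obtain ⟨u, hu, hmax⟩ := Set.exists_max_image S cs.length hS hS1
  refine ⟨u, hu, hK _ (fun s hs => absurd hs (Finset.notMem_empty s)) fun s => ?_⟩
  by_contra hcon
  push Not at hcon
  have h1 : u * cs.simple s ∈ S := by
    intro v hv
    have h2 := hcon v hv
    rw [mul_assoc] at h2
    have h3 := hu v hv
    have h4 := cs.length_simple_mul (u⁻¹ * (w * v)) s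
    have h5 := cs.length_mul_le (u * cs.simple s) ((u * cs.simple s)⁻¹ * (w * v))
    rw [mul_inv_cancel_left] at h5
    have e : (u * cs.simple s)⁻¹ * (w * v) = cs.simple s * (u⁻¹ * (w * v)) := by
      rw [mul_inv_rev, cs.inv_simple, mul_assoc]
    rw [e] at h5 ⊢
    have h6 := cs.length_mul_simple u s
    omega
  have h2 := hmax _ h1
  have h3 := hcon 1 (by rw [cs.length_one]; omega)
  rw [mul_one] at h3
  have h4 := hu 1 (by rw [cs.length_one]; omega)
  have h5 := h1 1 (by rw [cs.length_one]; omega)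
  rw [mul_one] at h4 h5
  have e : (u * cs.simple s)⁻¹ * w = cs.simple s * (u⁻¹ * w) := by
    rw [mul_inv_rev, cs.inv_simple, mul_assoc]
  rw [e] at h5
  have h6 := cs.length_simple_mul (u⁻¹ * w) s
  omega

end Pool.Agent.H818.Bd
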