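import Pool.Agent.H818.Bd.Ctl
import Pool.Agent.H818.CS.CE

/-!
# Groups acting on finitely many buildings
-/

set_option autoImplicit false
set_option linter.unusedSectionVars false

namespace Pool.Agent.H818.Bd

open CoxeterSystem Pool.Agent.Helper703.Cox Pool.Agent.TH5.BD Pool.Agent.Y476.ZB
open Pool.Agent.N313.EX Pool.Agent.H818.CS
open Pool.Agent.N506.EX (IsExact CoarselyEmbeds)
open scoped Pointwise

universe u v w z t

lemma isExact_of_injective {G : Type u} {G' : Type v} [Group G] [Group G'] (h : IsExact G)
    (f : G' →* G) (hf : Function.Injective f) : IsExact G' :=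
  (h.ex.of_injective f hf).isExact

lemma isExact_iff (G : Type u) [Group G] : IsExact G ↔ PropertyA G := by
  rw [isExact_iff_amInf, propertyA_iff_amInf]

section

variable {B : Type v} [Finite B] {M : CoxeterMatrix B} {W : Type w} [Group W]
variable {cs : CoxeterSystem M W} {C : Type z} [Nonempty C] (b : Building cs C)
variable {G : Type u} [Group G] [MulAction G C]

theorem isExact_of_building (hδ : ∀ (g : G) x y, b.δ (g • x) (g • y) = b.δ x y)
    (hst : ∀ (J : Set B) (x : C), ((Subgroup.closure (cs.simple '' J) : Subgroup W) : Set W).Finite →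
      IsExact (MulAction.stabilizer G (b.res J x))) : IsExact G := by
  classical
  have := Fintype.ofFinite B
  rw [isExact_iff]
  exact propertyA_of_building b hδ fun J x hJ => (isExact_iff _).1 (hst J x hJ)

theorem coarselyEmbeds_of_building [Countable G]
    (hδ : ∀ (g : G) x y, b.δ (g • x) (g • y) = b.δ x y)
    (hst : ∀ (J : Set B) (x : C), ((Subgroup.closure (cs.simple '' J) : Subgroup W) : Set W).Finite →
      CoarselyEmbeds (MulAction.stabilizer G (b.res J x))) : CoarselyEmbeds G := by
  classical
  have := Fintype.ofFinite B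
  let c : C := Classical.arbitrary C
  refine coarselyEmbeds_of_coarse (ρ := ℕ) (fun r => {g : G | cs.length (b.δ c (g • c)) ≤ r})
    (fun R : Set C => ∃ (J : Set B) (x : C), ((Par cs J : Subgroup W) : Set W).Finite ∧
      R = b.res J x) ?_ ?_ ?_
  · rintro R ⟨J, x, h1, rfl⟩
    exact hst J x h1
  · intro F ε hε
    exact ctl b hδ c F ε hε
  · intro r F ε hε
    obtain ⟨T, ν, h0, h1, h2, h3⟩ := loc b hδ c r F ε hε
    exact ⟨T, ν, h0, fun g _ => h1 g, fun g _ => h2 g, fun g hg f hf hgf => h3 g hg f hf hgf⟩

end

/-- Iteration over a finite family. -/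
lemma fam {G : Type u} [Group G] {ι : Type t} [Finite ι] {α : ι → Type v} [∀ i, Nonempty (α i)]
    (T : ∀ i, α i → Subgroup G) (Q : Subgroup G → Prop)
    (h : ∀ i H, (∀ a : α i, Q (H ⊓ T i a)) → Q H) (h0 : ∀ a : ∀ i, α i, Q (⨅ i, T i (a i))) :
    Q ⊤ := by
  classical
  have := Fintype.ofFinite ι
  have key : ∀ (s : Finset ι) (H : Subgroup G),
      (∀ a : ∀ i, α i, Q (H ⊓ ⨅ i ∈ s, T i (a i))) → Q H := by
    intro s
    induction s using Finset.induction_on with
    | empty =>
      intro H hH
      have := hH fun i => Classical.arbitrary _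
      simpa using this
    | insert i s hi ih =>
      intro H hH
      refine h i H fun ai => ih _ fun a => ?_
      have h1 := hH (Function.update a i ai)
      rw [Finset.iInf_insert, Function.update_self, ← inf_assoc] at h1
      have e : (⨅ j ∈ s, T j (Function.update a i ai j)) = ⨅ j ∈ s, T j (a j) := by
        refine iInf_congr fun j => iInf_congr fun hj => ?_
        have : j ≠ i := by rintro rfl; exact hi hj
        rw [Function.update_of_ne this]
      rw [e] at h1
      exact h1
  refine key Finset.univ ⊤ fun a => ?_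
  have := h0 a
  simpa using this

/-- The two descriptions of the stabilizer. -/
lemma stab_eq {B : Type v} {M : CoxeterMatrix B} {W : Type w} [Group W]
    {cs : CoxeterSystem M W} {C : Type z} (b : Building cs C) {G : Type u} [Group G]
    [MulAction G C] (J : Set B) (x : C) :
    b.stab G J x = MulAction.stabilizer G (b.res J x) := by
  ext g
  rw [MulAction.mem_stabilizer_iff]
  constructor
  · intro h
    ext y
    rw [Set.mem_smul_set_iff_inv_smul_mem]
    have h1 := h (g⁻¹ • y)
    rw [smul_inv_smul] at h1
    exact h1.symm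
  · intro h y
    conv_lhs => rw [← h]
    rw [Set.smul_mem_smul_set_iff]

section

variable {ι : Type t} [Finite ι] {B : ι → Type v} [∀ i, Finite (B i)]
  {M : ∀ i, CoxeterMatrix (B i)} {W : ι → Type w} [∀ i, Group (W i)]
  {cs : ∀ i, CoxeterSystem (M i) (W i)} {C : ι → Type z} [∀ i, Nonempty (C i)]
  (b : ∀ i, Building (cs i) (C i)) {G : Type u} [Group G] [∀ i, MulAction G (C i)]

/-- The stabilizer in a subgroup. -/
lemma stab_inj (H : Subgroup G) {X : Type z} [MulAction G X] (R : X) :
    ∃ f : MulAction.stabilizer H R →* ↥(H ⊓ MulAction.stabilizer G R),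
      Function.Injective f := by
  refine ⟨{ toFun := fun x => ⟨(x : H), ?_, ?_⟩, map_one' := rfl, map_mul' := fun _ _ => rfl },
    fun x y hxy => ?_⟩
  · exact (x : H).2
  · exact MulAction.mem_stabilizer_iff.2 (MulAction.mem_stabilizer_iff.1 x.2)
  · have h1 := congrArg Subtype.val hxy
    exact Subtype.ext (Subtype.ext h1)

theorem isExact_iff_buildings (hδ : ∀ i (g : G) x y, (b i).δ (g • x) (g • y) = (b i).δ x y) :
    IsExact G ↔ ∀ (J : ∀ i, Set (B i)) (x : ∀ i, C i),
      (∀ i, ((Subgroup.closure ((cs i).simple '' J i) : Subgroup (W i)) : Set (W i)).Finite) →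
      IsExact ↥(⨅ i, (b i).stab G (J i) (x i)) := by
  constructor
  · intro h J x _
    exact isExact_of_injective h (Subgroup.subtype _) (Subgroup.subtype_injective _)
  · intro h
    let α : ι → Type (max v z) := fun i => {p : Set (B i) × C i //
      ((Subgroup.closure ((cs i).simple '' p.1) : Subgroup (W i)) : Set (W i)).Finite}
    have hα : ∀ i, Nonempty (α i) := fun i => ⟨⟨(∅, Classical.arbitrary (C i)), by
      simp⟩⟩
    have h1 : IsExact (⊤ : Subgroup G) := by
      refine fam (α := α) (fun i p => (b i).stab G p.1.1 p.1.2)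
        (fun H => IsExact H) ?_ fun a => ?_
      · intro i H hH
        refine isExact_of_building (G := H) (b i) (fun g x y => hδ i g x y) fun J x hJ => ?_
        obtain ⟨f, hf⟩ := stab_inj H ((b i).res J x)
        have h2 := hH ⟨(J, x), hJ⟩
        simp only at h2
        rw [stab_eq] at h2
        exact isExact_of_injective h2 f hf
      · exact h (fun i => (a i).1.1) (fun i => (a i).1.2) fun i => (a i).2
    exact isExact_of_injective h1 (Subgroup.topEquiv (G := G)).symm.toMonoidHom
      (Subgroup.topEquiv (G := G)).symm.injective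

theorem coarselyEmbeds_iff_buildings [Countable G]
    (hδ : ∀ i (g : G) x y, (b i).δ (g • x) (g • y) = (b i).δ x y) :
    CoarselyEmbeds G ↔ ∀ (J : ∀ i, Set (B i)) (x : ∀ i, C i),
      (∀ i, ((Subgroup.closure ((cs i).simple '' J i) : Subgroup (W i)) : Set (W i)).Finite) →
      CoarselyEmbeds ↥(⨅ i, (b i).stab G (J i) (x i)) := by
  constructor
  · intro h J x _
    exact CoarselyEmbeds.of_injective h (Subgroup.subtype _) (Subgroup.subtype_injective _)
  · intro h
    let α : ι → Type (max v z) := fun i => {p : Set (B i) × C i //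
      ((Subgroup.closure ((cs i).simple '' p.1) : Subgroup (W i)) : Set (W i)).Finite}
    have hα : ∀ i, Nonempty (α i) := fun i => ⟨⟨(∅, Classical.arbitrary (C i)), by
      simp⟩⟩
    have h1 : CoarselyEmbeds (⊤ : Subgroup G) := by
      refine fam (α := α) (fun i p => (b i).stab G p.1.1 p.1.2)
        (fun H => CoarselyEmbeds H) ?_ fun a => ?_
      · intro i H hH
        refine coarselyEmbeds_of_building (G := H) (b i) (fun g x y => hδ i g x y) fun J x hJ => ?_
        obtain ⟨f, hf⟩ := stab_inj H ((b i).res J x)
        have h2 := hH ⟨(J, x), hJ⟩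
        simp only at h2
        rw [stab_eq] at h2
        exact CoarselyEmbeds.of_injective h2 f hf
      · exact h (fun i => (a i).1.1) (fun i => (a i).1.2) fun i => (a i).2
    exact CoarselyEmbeds.of_injective h1 (Subgroup.topEquiv (G := G)).symm.toMonoidHom
      (Subgroup.topEquiv (G := G)).symm.injective

end

end Pool.Agent.H818.Bd
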