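import Pool.Agent.H818.Bd.Rho
import Pool.Graph.R_pool_sql_team_seeded_1acbe0a2.Y476.ZB.Cox

/-!
# Midpoints, and the function `h`
-/

set_option autoImplicit false
set_option linter.unusedSectionVars false

namespace Pool.Agent.H818.Bd

open CoxeterSystem Pool.Agent.Helper703.Cox Pool.Agent.TH5.BD Pool.Agent.Y476.ZB

variable {B : Type*} {M : CoxeterMatrix B} [Fintype B] [DecidableEq B]
variable {W : Type*} [Group W] (cs : CoxeterSystem M W)

/-- The decomposition which gives the midpoints. -/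
lemma exists_mid (d : W) {a b : B → ℝ} (ha : 0 ≤ a) (hb : 0 ≤ b) :
    ∃ w w' : W, w * w' = d ∧ cs.length w + cs.length w' = cs.length d ∧
      0 ≤ dual cs w⁻¹ a + dual cs w' b := by
  set v := a + dual cs d b with hv
  let S : Set W := {w | cs.length w + cs.length (w⁻¹ * d) = cs.length d}
  have hS : S.Finite := (finite_length_le cs (cs.length d)).subset fun w hw => by
    have : cs.length w + cs.length (w⁻¹ * d) = cs.length d := hw
    simp only [Set.mem_ofPred_eq]
    omega
  have hS1 : S.Nonempty := ⟨1, by simp [S]⟩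
  obtain ⟨w, hw, hmin⟩ := Set.exists_min_image S (fun w => rho cs w⁻¹ ⬝ᵥ v) hS hS1
  have hw' : cs.length w + cs.length (w⁻¹ * d) = cs.length d := hw
  have hmin' : ∀ s : B, w * cs.simple s ∈ S → 0 ≤ (geo cs w (ee s)) ⬝ᵥ v := by
    intro s hs
    have h1 := hmin _ hs
    rw [mul_inv_rev, cs.inv_simple, rho_mul, inv_inv, rho_simple, add_dotProduct] at h1
    linarith
  refine ⟨w, w⁻¹ * d, by group, hw', fun s => ?_⟩
  have e1 : dual cs w⁻¹ a + dual cs (w⁻¹ * d) b = dual cs w⁻¹ v := by
    rw [hv, dual_add, dual_mul]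
  rw [e1, Pi.zero_apply, dual_apply, inv_inv]
  have htri := cs.length_mul_le (w * cs.simple s) ((w * cs.simple s)⁻¹ * d)
  rw [mul_inv_cancel_left] at htri
  have e2 : (w * cs.simple s)⁻¹ * d = cs.simple s * (w⁻¹ * d) := by
    rw [mul_inv_rev, cs.inv_simple, mul_assoc]
  rw [e2] at htri
  rcases cs.length_mul_simple w s with h | h
  · rcases cs.length_simple_mul (w⁻¹ * d) s with h' | h'
    · -- `s` is no descent
      rw [hv, dotProduct_add, dot_dual, ← Module.End.mul_apply, ← map_mul]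
      have h1 : 0 ≤ geo cs w (ee s) := geo_nonneg cs w s (by omega)
      have h2 : 0 ≤ geo cs (d⁻¹ * w) (ee s) := by
        apply geo_nonneg
        have e3 : d⁻¹ * w = (w⁻¹ * d)⁻¹ := by group
        have e4 : (w⁻¹ * d)⁻¹ * cs.simple s = (cs.simple s * (w⁻¹ * d))⁻¹ := by
          rw [mul_inv_rev (cs.simple s), cs.inv_simple]
        rw [e3, e4, cs.length_inv, cs.length_inv]
        omega
      have h3 : 0 ≤ geo cs w (ee s) ⬝ᵥ a :=
        Finset.sum_nonneg fun i _ => mul_nonneg (h1 i) (ha i)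
      have h4 : 0 ≤ geo cs (d⁻¹ * w) (ee s) ⬝ᵥ b :=
        Finset.sum_nonneg fun i _ => mul_nonneg (h2 i) (hb i)
      linarith
    · refine hmin' s ?_
      show cs.length (w * cs.simple s) + cs.length ((w * cs.simple s)⁻¹ * d) = cs.length d
      rw [e2]
      omega
  · refine hmin' s ?_
    show cs.length (w * cs.simple s) + cs.length ((w * cs.simple s)⁻¹ * d) = cs.length d
    rw [e2]
    have := cs.length_simple_mul (w⁻¹ * d) s
    omega

/-- A small value of `Lw w b` bounds the type of `w`. -/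
lemma mem_par_of_Lw {b : B → ℝ} (hb : 0 ≤ b) {t : ℝ} : ∀ (n : ℕ) (w : W), cs.length w = n →
    Lw cs w b ≤ t → w ∈ Par cs {s | b s ≤ t} := by
  intro n
  induction n with
  | zero =>
    intro w hw _
    rw [cs.length_eq_zero_iff] at hw
    rw [hw]
    exact Subgroup.one_mem _
  | succ n ih =>
    intro w hw hL
    have h1 : w ≠ 1 := by
      rintro rfl
      rw [cs.length_one] at hw
      omega
    obtain ⟨s, hs⟩ := cs.exists_leftDescent_of_ne_one h1
    have hs' : cs.length (cs.simple s * w) < cs.length w := hs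
    obtain ⟨w', hw'⟩ : ∃ w', w' = cs.simple s * w := ⟨_, rfl⟩
    have e : w = cs.simple s * w' := by rw [hw', cs.simple_mul_simple_cancel_left]
    rw [← hw'] at hs'
    have hl : cs.length w = cs.length w' + 1 := by
      rw [e] at hs' ⊢
      rcases cs.length_simple_mul w' s with h | h <;> omega
    have h2 : 0 ≤ dual cs w' b s := dual_nonneg_of_lt cs (by rw [← e]; exact hs') hb
    have h3 : Lw cs w b = dual cs w' b s + Lw cs w' b := by
      rw [e, Lw_mul, Lw_simple]
    have h4 := ih w' (by omega) (by linarith)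
    have h5 : s ∈ {s | b s ≤ t} := by
      by_contra hc
      have hc' : t < b s := not_le.1 hc
      have h6 : 0 ≤ Lw cs w' b := Lw_nonneg cs w' hb
      have h7 : b s ≤ dual cs w' b s := by
        rw [dual_apply]
        have h8 : 0 ≤ geo cs w'⁻¹ (ee s) := by
          apply geo_nonneg
          rw [cs.length_inv, ← cs.length_inv (w'⁻¹ * cs.simple s), mul_inv_rev, inv_inv,
            cs.inv_simple, ← e]
          exact hs'
        have h9 : geo cs w'⁻¹ (ee s) s = 1 := by
          rw [par_geo (Subgroup.inv_mem _ h4) _ s hc]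
          simp [ee]
        calc b s = geo cs w'⁻¹ (ee s) s * b s := by rw [h9, one_mul]
          _ ≤ ∑ i, geo cs w'⁻¹ (ee s) i * b i :=
            Finset.single_le_sum (f := fun i => geo cs w'⁻¹ (ee s) i * b i)
              (fun i _ => mul_nonneg (h8 i) (hb i)) (Finset.mem_univ s)
      linarith
    rw [e]
    exact Subgroup.mul_mem _ (simple_mem_par h5) h4

/-- `φ x = √(1 + x²)` -/
noncomputable def phi (x : ℝ) : ℝ := Real.sqrt (1 + x ^ 2)

lemma phi_sq (x : ℝ) : phi x ^ 2 = 1 + x ^ 2 := Real.sq_sqrt (by positivity)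
lemma phi_pos (x : ℝ) : 0 < phi x := Real.sqrt_pos.2 (by positivity)
lemma one_le_phi (x : ℝ) : 1 ≤ phi x := by
  have := phi_sq x
  have := phi_pos x
  nlinarith [sq_nonneg x]
lemma abs_le_phi (x : ℝ) : |x| ≤ phi x := by
  refine abs_le_of_sq_le_sq' ?_ (phi_pos x).le |> fun h => abs_le.2 h
  rw [phi_sq]
  linarith

lemma phi_lip (x y : ℝ) : phi x ≤ phi y + |x - y| := by
  have h1 := phi_sq x
  have h2 := phi_sq y
  have h3 := abs_le_phi y
  have h4 := phi_pos x
  have h5 := phi_pos y
  have h6 : 0 ≤ |x - y| := abs_nonneg _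
  have h7 : phi x ^ 2 ≤ (phi y + |x - y|) ^ 2 := by
    have h8 : (phi y + |x - y|) ^ 2 = phi y ^ 2 + 2 * phi y * |x - y| + |x - y| ^ 2 := by ring
    rw [h8, h1, h2, sq_abs]
    have h9 : |y| * |x - y| ≤ phi y * |x - y| := mul_le_mul_of_nonneg_right h3 h6
    have h10 : y * (x - y) ≤ |y| * |x - y| := by
      rw [← abs_mul]
      exact le_abs_self _
    nlinarith
  exact le_of_sq_le_sq h7 (by positivity) |> fun h => h

/-- Strict convexity of `φ`. -/
lemma phi_conv (x y : ℝ) :
    phi ((x + y) / 2) + (x - y) ^ 2 / (16 * (phi x + phi y) ^ 3) ≤ (phi x + phi y) / 2 := by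
  have h1 := phi_sq x
  have h2 := phi_sq y
  have h3 := phi_sq ((x + y) / 2)
  have p1 := phi_pos x
  have p2 := phi_pos y
  have p3 := phi_pos ((x + y) / 2)
  set X := phi x
  set Y := phi y
  set Z := phi ((x + y) / 2)
  -- `((X + Y) / 2)² - Z² = (2 X Y - 2 - 2 x y) / 4`
  have e1 : ((X + Y) / 2) ^ 2 - Z ^ 2 = (X * Y - (1 + x * y)) / 2 := by
    have : ((X + Y) / 2) ^ 2 = (X ^ 2 + Y ^ 2) / 4 + X * Y / 2 := by ring
    rw [this, h1, h2, h3]
    ring
  -- `X Y - (1 + x y) ≥ (x - y)² / (2 X Y)`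
  have e2 : (X * Y) ^ 2 = (1 + x * y) ^ 2 + (x - y) ^ 2 := by
    rw [mul_pow, h1, h2]
    ring
  have e3 : (x - y) ^ 2 ≤ (X * Y - (1 + x * y)) * (2 * (X * Y)) := by
    have h4 : 1 + x * y ≤ X * Y := by
      by_contra hc
      push Not at hc
      have : (X * Y) ^ 2 < (1 + x * y) ^ 2 := pow_lt_pow_left₀ hc (by positivity) two_ne_zero
      nlinarith [sq_nonneg (x - y)]
    nlinarith
  have h5 : Z ≤ (X + Y) / 2 := by
    by_contra hc
    push Not at hc
    have h6 : ((X + Y) / 2) ^ 2 < Z ^ 2 := pow_lt_pow_left₀ hc (by positivity) two_ne_zero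
    have h7 : 0 ≤ X * Y - (1 + x * y) := by
      by_contra hc2
      push Not at hc2
      nlinarith [sq_nonneg (x - y), mul_pos p1 p2]
    linarith
  -- conclusion
  have h8 : (X + Y) / 2 - Z = ((X * Y - (1 + x * y)) / 2) / ((X + Y) / 2 + Z) := by
    rw [eq_div_iff (by positivity), ← e1]
    ring
  have h9 : (x - y) ^ 2 / (16 * (X + Y) ^ 3) ≤ ((X * Y - (1 + x * y)) / 2) / ((X + Y) / 2 + Z) := by
    rw [div_le_div_iff₀ (by positivity) (by positivity)]
    have h10 : (X + Y) / 2 + Z ≤ X + Y := by linarith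
    have h11 : 0 ≤ X * Y - (1 + x * y) := by
      by_contra hc2
      push Not at hc2
      nlinarith [sq_nonneg (x - y), mul_pos p1 p2]
    have h12 : (x - y) ^ 2 * ((X + Y) / 2 + Z) ≤ (x - y) ^ 2 * (X + Y) :=
      mul_le_mul_of_nonneg_left h10 (sq_nonneg _)
    have h13 : (x - y) ^ 2 * (X + Y) ≤ (X * Y - (1 + x * y)) * (2 * (X * Y)) * (X + Y) :=
      mul_le_mul_of_nonneg_right e3 (by positivity)
    have h14 : 2 * (X * Y) ≤ 8 * (X + Y) ^ 2 := by nlinarith [sq_nonneg (X - Y), mul_pos p1 p2]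
    have h15 : (X * Y - (1 + x * y)) * (2 * (X * Y)) * (X + Y) ≤
        (X * Y - (1 + x * y)) * (8 * (X + Y) ^ 2) * (X + Y) := by
      refine mul_le_mul_of_nonneg_right (mul_le_mul_of_nonneg_left h14 h11) (by positivity)
    have h16 : (X * Y - (1 + x * y)) * (8 * (X + Y) ^ 2) * (X + Y) =
        (X * Y - (1 + x * y)) / 2 * (16 * (X + Y) ^ 3) := by ring
    linarith
  linarith

/-- `h a = Σ φ (a_i)` -/
noncomputable def hh (a : B → ℝ) : ℝ := ∑ i, phi (a i)

lemma hh_nonneg (a : B → ℝ) : 0 ≤ hh a := Finset.sum_nonneg fun _ _ => (phi_pos _).le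

lemma phi_le_hh (a : B → ℝ) (i : B) : phi (a i) ≤ hh a :=
  Finset.single_le_sum (f := fun i => phi (a i)) (fun _ _ => (phi_pos _).le) (Finset.mem_univ i)

/-- The `ℓ¹`-displacement of `b` under `w`. -/
lemma dual_sub_le : ∀ (n : ℕ) (w : W), cs.length w = n → ∀ {b : B → ℝ}, 0 ≤ b →
    ∑ i, |dual cs w b i - b i| ≤ 2 * Fintype.card B * Lw cs w b := by
  intro n
  induction n with
  | zero =>
    intro w hw b _
    rw [cs.length_eq_zero_iff] at hw
    rw [hw, dual_one, Lw_one]
    simp
  | succ n ih =>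
    intro w hw b hb
    have h1 : w ≠ 1 := by
      rintro rfl
      rw [cs.length_one] at hw
      omega
    obtain ⟨s, hs⟩ := cs.exists_leftDescent_of_ne_one h1
    have hs' : cs.length (cs.simple s * w) < cs.length w := hs
    obtain ⟨w', hw'⟩ : ∃ w', w' = cs.simple s * w := ⟨_, rfl⟩
    have e : w = cs.simple s * w' := by rw [hw', cs.simple_mul_simple_cancel_left]
    rw [← hw'] at hs'
    have hl : cs.length w = cs.length w' + 1 := by
      rw [e] at hs' ⊢
      rcases cs.length_simple_mul w' s with h | h <;> omega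
    have h2 : 0 ≤ dual cs w' b s := dual_nonneg_of_lt cs (by rw [← e]; exact hs') hb
    have h3 : Lw cs w b = dual cs w' b s + Lw cs w' b := by
      rw [e, Lw_mul, Lw_simple]
    have h4 := ih w' (by omega) hb
    have h5 : ∀ i, |dual cs w b i - b i| ≤ 2 * dual cs w' b s + |dual cs w' b i - b i| := by
      intro i
      rw [e, dual_mul, dual_simple]
      have h6 : |cc M i s| ≤ 1 := Real.abs_cos_le_one _
      have h7 : |2 * cc M i s * dual cs w' b s| ≤ 2 * dual cs w' b s := by
        rw [abs_mul, abs_mul, abs_of_nonneg h2, abs_two]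
        nlinarith
      calc |dual cs w' b i + 2 * cc M i s * dual cs w' b s - b i| =
          |2 * cc M i s * dual cs w' b s + (dual cs w' b i - b i)| := by ring_nf
        _ ≤ _ := (abs_add_le _ _).trans (by linarith)
    calc ∑ i, |dual cs w b i - b i| ≤ ∑ i, (2 * dual cs w' b s + |dual cs w' b i - b i|) :=
          Finset.sum_le_sum fun i _ => h5 i
      _ = 2 * Fintype.card B * dual cs w' b s + ∑ i, |dual cs w' b i - b i| := by
          rw [Finset.sum_add_distrib, Finset.sum_const, Finset.card_univ, nsmul_eq_mul]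
          ring
      _ ≤ _ := by
          rw [h3]
          linarith

lemma hh_dual_le (w : W) {b : B → ℝ} (hb : 0 ≤ b) :
    hh (dual cs w b) ≤ hh b + 2 * Fintype.card B * Lw cs w b := by
  have h1 := dual_sub_le cs _ w rfl hb
  have h2 : hh (dual cs w b) ≤ ∑ i, (phi (b i) + |dual cs w b i - b i|) :=
    Finset.sum_le_sum fun i _ => phi_lip _ _
  rw [Finset.sum_add_distrib] at h2
  unfold hh at h2 ⊢
  linarith

end Pool.Agent.H818.Bd
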