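import Pool.Graph.R_seed8.TH5.BD.Para

/-!
# The sum of the inversions of an element of a Coxeter group, and the dual representation
-/

set_option autoImplicit false
set_option linter.unusedSectionVars false

namespace Pool.Agent.H818.Bd

open CoxeterSystem Pool.Agent.Helper703.Cox Pool.Agent.TH5.BD

variable {B : Type*} {M : CoxeterMatrix B} [Fintype B] [DecidableEq B]
variable {W : Type*} [Group W] (cs : CoxeterSystem M W)

/-- The sum of the positive roots made negative by `w`. -/
noncomputable def rho (w : W) : B → ℝ := ∑ γ ∈ (inv_finite (cs := cs) w).toFinset, γ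

lemma rho_one : rho cs 1 = 0 := by
  have : (inv_finite (cs := cs) (1 : W)).toFinset = ∅ := by
    rw [Set.Finite.toFinset_eq_empty, Set.eq_empty_iff_forall_notMem]
    rintro β ⟨h, h0, h1⟩
    rw [map_one, Module.End.one_apply] at h1
    exact h.not_nonpos h0 h1
  rw [rho, this, Finset.sum_empty]

lemma rho_nonneg (w : W) : 0 ≤ rho cs w := by
  refine Finset.sum_nonneg fun γ hγ => ?_
  rw [Set.Finite.mem_toFinset] at hγ
  exact hγ.2.1

lemma rho_aux (w : W) (s : B) (h : cs.length w < cs.length (w * cs.simple s)) :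
    rho cs (w * cs.simple s) = sg M s (rho cs w) + ee s := by
  classical
  have hsp : 0 ≤ geo cs w (ee s) := geo_nonneg cs w s h
  have e1 : (inv_finite (cs := cs) (w * cs.simple s)).toFinset =
      insert (ee s) ((inv_finite (cs := cs) w).toFinset.image (sg M s)) := by
    ext γ
    simp only [Set.Finite.mem_toFinset, Finset.mem_insert, Finset.mem_image]
    constructor
    · rintro ⟨h1, h2, h3⟩
      by_cases hγ : γ = ee s
      · exact Or.inl hγ
      · refine Or.inr ⟨sg M s γ, ⟨h1.sg s, h1.simple_pos h2 hγ, ?_⟩, sg_sg M s γ⟩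
        rwa [map_mul, Module.End.mul_apply, geo_simple] at h3
    · rintro (rfl | ⟨β, ⟨h1, h2, h3⟩, rfl⟩)
      · refine ⟨isRoot_ee s, ee_nonneg s, ?_⟩
        rw [map_mul, Module.End.mul_apply, geo_simple, sg_ee_self, map_neg]
        exact neg_nonpos.2 hsp
      · have hβ : β ≠ ee s := by
          rintro rfl
          exact geo_ee_ne_zero cs w s (le_antisymm h3 hsp)
        refine ⟨h1.sg s, h1.simple_pos h2 hβ, ?_⟩
        rw [map_mul, Module.End.mul_apply, geo_simple, sg_sg]
        exact h3
  have e2 : (ee s : B → ℝ) ∉ (inv_finite (cs := cs) w).toFinset.image (sg M s) := by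
    intro hc
    obtain ⟨β, hβ, hβ2⟩ := Finset.mem_image.1 hc
    rw [Set.Finite.mem_toFinset] at hβ
    have h3 : β = - ee s := by rw [← sg_sg M s β, hβ2, sg_ee_self]
    have h4 := hβ.2.1 s
    rw [h3] at h4
    simp [ee] at h4
    linarith
  have e3 : Set.InjOn (sg M s) ((inv_finite (cs := cs) w).toFinset : Set (B → ℝ)) := by
    intro x _ y _ hxy
    rw [← sg_sg M s x, hxy, sg_sg]
  rw [rho, e1, Finset.sum_insert e2, Finset.sum_image e3, rho, map_sum, add_comm]

/-- The cocycle property of `rho`, for a simple reflection. -/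
lemma rho_mul_simple (w : W) (s : B) :
    rho cs (w * cs.simple s) = sg M s (rho cs w) + ee s := by
  rcases cs.length_mul_simple w s with h | h
  · exact rho_aux cs w s (by omega)
  · have h1 := rho_aux cs (w * cs.simple s) s (by
      rw [cs.simple_mul_simple_cancel_right]; omega)
    rw [cs.simple_mul_simple_cancel_right] at h1
    rw [h1, map_add, sg_sg, sg_ee_self]
    abel

lemma rho_simple (s : B) : rho cs (cs.simple s) = ee s := by
  have := rho_mul_simple cs 1 s
  rw [one_mul, rho_one, map_zero, zero_add] at this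
  exact this

/-- The cocycle property of `rho`. -/
lemma rho_mul (w v : W) : rho cs (w * v) = geo cs v⁻¹ (rho cs w) + rho cs v := by
  obtain ⟨ω, rfl⟩ := cs.wordProd_surjective v
  induction ω using List.reverseRecOn with
  | nil => simp [rho_one]
  | append_singleton ω i ih =>
    rw [cs.wordProd_append, cs.wordProd_singleton, ← mul_assoc, rho_mul_simple, ih,
      rho_mul_simple, mul_inv_rev, map_mul, Module.End.mul_apply, cs.inv_simple, geo_simple,
      map_add, add_assoc]

/-- The sum of the coordinates. -/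
noncomputable def ht (v : B → ℝ) : ℝ := ∑ i, v i

lemma ht_add (v w : B → ℝ) : ht (v + w) = ht v + ht w := by simp [ht, Finset.sum_add_distrib]
lemma ht_smul (c : ℝ) (v : B → ℝ) : ht (c • v) = c * ht v := by
  simp [ht, Finset.mul_sum]
lemma ht_neg (v : B → ℝ) : ht (-v) = - ht v := by simp [ht]
lemma ht_sub (v w : B → ℝ) : ht (v - w) = ht v - ht w := by simp [ht]
lemma ht_ee (i : B) : ht (ee i : B → ℝ) = 1 := by simp [ht, ee]
lemma ht_nonneg {v : B → ℝ} (h : 0 ≤ v) : 0 ≤ ht v := Finset.sum_nonneg fun i _ => h i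

/-- `⟨ρ_w, β⟩ = ht β - ht (w β)`. -/
lemma bf_rho (w : W) (β : B → ℝ) : bf M (rho cs w) β = ht β - ht (geo cs w β) := by
  obtain ⟨ω, rfl⟩ := cs.wordProd_surjective w
  induction ω using List.reverseRecOn generalizing β with
  | nil => simp [rho_one]
  | append_singleton ω i ih =>
    rw [cs.wordProd_append, cs.wordProd_singleton, rho_mul_simple, map_add, LinearMap.add_apply]
    have h1 : bf M (sg M i (rho cs (cs.wordProd ω))) β =
        bf M (rho cs (cs.wordProd ω)) (sg M i β) := by
      conv_lhs => rw [← sg_sg M i β]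
      rw [bf_sg]
    rw [h1, ih, map_mul, Module.End.mul_apply, geo_simple, bf_ee]
    have h2 : ht (sg M i β) = ht β - coroot M i β := by
      rw [sg_apply, ht_sub, ht_smul, ht_ee, mul_one]
    rw [h2]
    ring

/-- The dual representation. -/
noncomputable def dual (w : W) (a : B → ℝ) : B → ℝ := fun i => geo cs w⁻¹ (ee i) ⬝ᵥ a

lemma dot_dual (w : W) (v a : B → ℝ) : v ⬝ᵥ dual cs w a = geo cs w⁻¹ v ⬝ᵥ a := by
  have e : v = ∑ i, v i • (ee i : B → ℝ) := by
    funext j
    simp [ee, Finset.sum_apply, Pi.single_apply]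
  conv_rhs => rw [e]
  rw [map_sum, sum_dotProduct]
  simp only [map_smul, smul_dotProduct, smul_eq_mul]
  rfl

lemma dual_apply (w : W) (a : B → ℝ) (i : B) : dual cs w a i = geo cs w⁻¹ (ee i) ⬝ᵥ a := rfl

lemma dual_one (a : B → ℝ) : dual cs 1 a = a := by
  funext i
  rw [dual_apply, inv_one, map_one, Module.End.one_apply]
  simp [ee]

lemma dual_mul (w v : W) (a : B → ℝ) : dual cs (w * v) a = dual cs w (dual cs v a) := by
  funext i
  rw [dual_apply, dual_apply, dot_dual, mul_inv_rev, map_mul, Module.End.mul_apply]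

lemma dual_add (w : W) (a b : B → ℝ) : dual cs w (a + b) = dual cs w a + dual cs w b := by
  funext i
  simp [dual_apply, dotProduct_add]

lemma dual_smul (w : W) (c : ℝ) (a : B → ℝ) : dual cs w (c • a) = c • dual cs w a := by
  funext i
  simp [dual_apply, dotProduct_smul]

lemma dual_simple (s : B) (a : B → ℝ) (i : B) :
    dual cs (cs.simple s) a i = a i + 2 * cc M i s * a s := by
  rw [dual_apply, cs.inv_simple, geo_simple, sg_ee, add_dotProduct, smul_dotProduct]
  simp [ee]

/-- `Lw w a = ⟨ρ_w, a⟩`. -/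
noncomputable def Lw (w : W) (a : B → ℝ) : ℝ := rho cs w ⬝ᵥ a

lemma Lw_one (a : B → ℝ) : Lw cs 1 a = 0 := by rw [Lw, rho_one, zero_dotProduct]

lemma Lw_nonneg (w : W) {a : B → ℝ} (ha : 0 ≤ a) : 0 ≤ Lw cs w a :=
  Finset.sum_nonneg fun i _ => mul_nonneg (rho_nonneg cs w i) (ha i)

lemma Lw_mul (w v : W) (a : B → ℝ) : Lw cs (w * v) a = Lw cs w (dual cs v a) + Lw cs v a := by
  rw [Lw, rho_mul, add_dotProduct, Lw, dot_dual, Lw]

lemma Lw_simple (s : B) (a : B → ℝ) : Lw cs (cs.simple s) a = a s := by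
  rw [Lw, rho_simple]
  simp [ee]

lemma Lw_add (w : W) (a b : B → ℝ) : Lw cs w (a + b) = Lw cs w a + Lw cs w b := dotProduct_add _ _ _
lemma Lw_smul (w : W) (c : ℝ) (a : B → ℝ) : Lw cs w (c • a) = c * Lw cs w a := dotProduct_smul _ _ _

/-- positivity in the fundamental chamber -/
lemma dual_nonneg_of_lt {w : W} {s : B} (h : cs.length w < cs.length (cs.simple s * w))
    {b : B → ℝ} (hb : 0 ≤ b) : 0 ≤ dual cs w b s := by
  rw [dual_apply]
  have h1 : 0 ≤ geo cs w⁻¹ (ee s) := by
    apply geo_nonneg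
    rwa [cs.length_inv, ← cs.length_inv (w⁻¹ * cs.simple s), mul_inv_rev, inv_inv, cs.inv_simple]
  exact Finset.sum_nonneg fun i _ => mul_nonneg (h1 i) (hb i)

/-- The case of a fold. -/
lemma Lw_fold {v : W} {s : B} (h : cs.length (v * cs.simple s) < cs.length v) {e : B → ℝ}
    (he : 0 ≤ e s) : Lw cs v (dual cs (cs.simple s) e) + e s ≤ Lw cs v e := by
  have h1 : Lw cs v e - Lw cs v (dual cs (cs.simple s) e) = e s * bf M (rho cs v) (ee s) := by
    rw [bf_symm, bf_ee, coroot_apply, Lw, Lw, ← dotProduct_sub, dotProduct, Finset.mul_sum]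
    refine Finset.sum_congr rfl fun i _ => ?_
    rw [Pi.sub_apply, dual_simple, cc_symm]
    ring
  have h2 : 1 ≤ bf M (rho cs v) (ee s) := by
    rw [bf_rho, ht_ee]
    have h3 := geo_nonpos cs v s h
    have h4 : 0 ≤ ht (- geo cs v (ee s)) := ht_nonneg (neg_nonneg.2 h3)
    rw [ht_neg] at h4
    linarith
  nlinarith

end Pool.Agent.H818.Bd
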